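import Mathlib

/-! Propagation of convergence of holomorphic functions with real parts bounded above. -/

set_option autoImplicit false

namespace Pool.Agent.Q45.CT

open Complex Filter Topology Set Metric

/-- bounded on a ball and small on a smaller one: small on all smaller balls -/
theorem two_const {R ρ r C η : ℝ} (hρ : 0 < ρ) (hr : 0 < r) (hrR : r < R) (hη : 0 < η) (hC : 0 ≤ C) :
    ∃ ε > 0, ∀ (z : ℂ) (f : ℂ → ℂ), DifferentiableOn ℂ f (ball z R) →
      (∀ w ∈ ball z R, ‖f w‖ ≤ C) → (∀ w ∈ ball z ρ, ‖f w‖ ≤ ε) → ∀ w ∈ ball z r, ‖f w‖ ≤ η := by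
  set R1 := (r + R) / 2 with hR1
  have h1 : r < R1 := by rw [hR1]; linarith
  have h2 : R1 < R := by rw [hR1]; linarith
  have hR10 : 0 < R1 := hr.trans h1
  set ρ1 := min (ρ / 2) R1 with hρ1
  have hρ10 : 0 < ρ1 := lt_min (by positivity) hR10
  have hρ1ρ : ρ1 < ρ := (min_le_left _ _).trans_lt (by linarith)
  have hρ1R : ρ1 < R := (min_le_right _ _).trans_lt h2
  set q := r / R1 with hq
  have hq0 : 0 ≤ q := by positivity
  have hq1 : q < 1 := by rw [hq, div_lt_one hR10]; exact h1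
  clear_value R1 ρ1 q
  obtain ⟨N, hN⟩ : ∃ N : ℕ, C / (1 - q) * q ^ N < η / 2 := by
    have := (tendsto_pow_atTop_nhds_zero_of_lt_one hq0 hq1).const_mul (C / (1 - q))
    rw [mul_zero] at this
    exact (this.eventually (gt_mem_nhds (by positivity : (0 : ℝ) < η / 2))).exists
  set S := ∑ n ∈ Finset.range N, (r / ρ1) ^ n with hS
  have hS0 : 0 ≤ S := Finset.sum_nonneg fun i _ => by positivity
  refine ⟨η / 2 / (S + 1), by positivity, fun z f hf hfC hfε w hw => ?_⟩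
  set ε := η / 2 / (S + 1) with hε
  have hε0 : 0 < ε := by positivity
  have hwr : ‖w - z‖ < r := by
    rw [mem_ball, dist_eq_norm] at hw; exact hw
  have hwR : w ∈ ball z R := by
    rw [mem_ball, dist_eq_norm]; linarith
  have hT := Complex.hasSum_taylorSeries_on_ball hf hwR
  have hb1 : ∀ n : ℕ, ‖(n.factorial : ℂ)⁻¹ • (w - z) ^ n • iteratedDeriv n f z‖ ≤ C * q ^ n := by
    intro n
    have h3 := Complex.norm_iteratedDeriv_le_of_forall_mem_sphere_norm_le n hR10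
      (hf.diffContOnCl_ball (closedBall_subset_ball h2)) (C := C) fun v hv =>
        hfC v (closedBall_subset_ball h2 (sphere_subset_closedBall hv))
    rw [smul_eq_mul, smul_eq_mul, norm_mul, norm_mul, norm_inv, norm_pow, Complex.norm_natCast]
    have hn : (0 : ℝ) < n.factorial := by exact_mod_cast n.factorial_pos
    calc (n.factorial : ℝ)⁻¹ * (‖w - z‖ ^ n * ‖iteratedDeriv n f z‖)
        ≤ (n.factorial : ℝ)⁻¹ * (r ^ n * (n.factorial * C / R1 ^ n)) := by gcongr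
      _ = C * q ^ n := by rw [hq, div_pow]; field_simp
  have hb2 : ∀ n : ℕ, ‖(n.factorial : ℂ)⁻¹ • (w - z) ^ n • iteratedDeriv n f z‖ ≤
      ε * (r / ρ1) ^ n := by
    intro n
    have h3 := Complex.norm_iteratedDeriv_le_of_forall_mem_sphere_norm_le n hρ10
      (hf.diffContOnCl_ball (closedBall_subset_ball hρ1R)) (C := ε) fun v hv =>
        hfε v (closedBall_subset_ball hρ1ρ (sphere_subset_closedBall hv))
    rw [smul_eq_mul, smul_eq_mul, norm_mul, norm_mul, norm_inv, norm_pow, Complex.norm_natCast]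
    have hn : (0 : ℝ) < n.factorial := by exact_mod_cast n.factorial_pos
    calc (n.factorial : ℝ)⁻¹ * (‖w - z‖ ^ n * ‖iteratedDeriv n f z‖)
        ≤ (n.factorial : ℝ)⁻¹ * (r ^ n * (n.factorial * ε / ρ1 ^ n)) := by gcongr
      _ = ε * (r / ρ1) ^ n := by rw [div_pow]; field_simp
  have h4 := hT.summable.sum_add_tsum_nat_add N
  rw [hT.tsum_eq] at h4
  rw [← h4]
  have h5 : ‖∑ n ∈ Finset.range N, (n.factorial : ℂ)⁻¹ • (w - z) ^ n • iteratedDeriv n f z‖ ≤
      ε * S := by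
    rw [hS, Finset.mul_sum]
    exact norm_sum_le_of_le _ fun n _ => hb2 n
  have h6 : ‖∑' n : ℕ, ((n + N).factorial : ℂ)⁻¹ • (w - z) ^ (n + N) •
      iteratedDeriv (n + N) f z‖ ≤ C / (1 - q) * q ^ N := by
    refine tsum_of_norm_bounded ?_ fun n => hb1 (n + N)
    have h7 := (hasSum_geometric_of_lt_one hq0 hq1).mul_left (C * q ^ N)
    have h8 : (fun n => C * q ^ (n + N)) = fun n => C * q ^ N * q ^ n := by
      funext n; rw [pow_add]; ring
    have h9 : C / (1 - q) * q ^ N = C * q ^ N * (1 - q)⁻¹ := by rw [div_eq_mul_inv]; ring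
    rw [h8, h9]
    exact h7
  have h7 : ε * S ≤ η / 2 := by
    rw [hε, div_mul_eq_mul_div, div_le_iff₀ (by positivity)]
    nlinarith
  calc _ ≤ _ := norm_add_le _ _
    _ ≤ ε * S + C / (1 - q) * q ^ N := add_le_add h5 h6
    _ ≤ η := by linarith

/-- Borel-Caratheodory on a ball with arbitrary centre -/
theorem bc {R r M B : ℝ} (hr : 0 < r) (hrR : r < R) : ∃ C : ℝ, 0 ≤ C ∧ ∀ (z : ℂ) (f : ℂ → ℂ),
    DifferentiableOn ℂ f (ball z R) → (∀ w ∈ ball z R, (f w).re ≤ M) → ‖f z‖ ≤ B →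
      ∀ w ∈ ball z r, ‖f w‖ ≤ C := by
  have hM : 0 < |M| + 1 := by positivity
  have hRr : 0 < R - r := by linarith
  have hR : 0 < R := hr.trans hrR
  refine ⟨2 * (|M| + 1) * r / (R - r) + |B| * (R + r) / (R - r), by positivity,
    fun z f hf hre hz w hw => ?_⟩
  have hw' : ‖w - z‖ < r := by rw [mem_ball, dist_eq_norm] at hw; exact hw
  have h1 := Complex.borelCaratheodory (f := fun v => f (z + v)) (M := |M| + 1) (R := R)
    (z := w - z) hM ?_ ?_ hR ?_
  · rw [add_sub_cancel, add_zero] at h1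
    refine h1.trans ?_
    have h2 : 0 < R - ‖w - z‖ := by linarith
    have h3 : ‖f z‖ ≤ |B| := hz.trans (le_abs_self _)
    gcongr
  · refine hf.comp (by fun_prop) fun v hv => ?_
    rw [mem_ball, dist_eq_norm] at hv ⊢
    simpa using hv
  · intro v hv
    have h2 : z + v ∈ ball z R := by
      rw [mem_ball, dist_eq_norm] at hv ⊢
      simpa using hv
    have := hre _ h2
    show (f (z + v)).re ≤ |M| + 1
    have := le_abs_self M
    linarith
  · rw [mem_ball, dist_eq_norm, sub_zero]; linarith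

variable {κ : Type} {p : Filter κ} {F : κ → ℂ → ℂ}

/-- the points near which the functions are bounded and uniformly Cauchy -/
def Good (F : κ → ℂ → ℂ) (p : Filter κ) : Set ℂ :=
  {s | ∃ r > 0, (∃ B : ℝ, ∀ᶠ k in p, ∀ w ∈ ball s r, ‖F k w‖ ≤ B) ∧
    UniformCauchySeqOn F p (ball s r)}

theorem isOpen_good : IsOpen (Good F p) := by
  rw [Metric.isOpen_iff]
  rintro s ⟨r, hr, ⟨B, hB⟩, hc⟩
  refine ⟨r, hr, fun s' hs' => ?_⟩
  have hd : dist s' s < r := hs'
  have hsub : ball s' (r - dist s' s) ⊆ ball s r := ball_subset_ball' (by linarith)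
  refine ⟨r - dist s' s, by linarith, ⟨B, ?_⟩, hc.mono hsub⟩
  filter_upwards [hB] with k hk w hw
  exact hk w (hsub hw)

theorem good_step (hF : ∀ᶠ k in p, Differentiable ℂ (F k)) {s : ℂ} {r₀ M : ℝ} (hr₀ : 0 < r₀)
    (hM : ∀ᶠ k in p, ∀ w ∈ ball s r₀, (F k w).re ≤ M) (hs : s ∈ closure (Good F p)) :
    s ∈ Good F p := by
  obtain ⟨s', ⟨r', hr', ⟨B, hB⟩, hc⟩, hd⟩ := Metric.mem_closure_iff.1 hs (r₀ / 4) (by positivity)
  have hd' : dist s' s < r₀ / 4 := by rw [dist_comm]; exact hd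
  have hsub : ball s' (r₀ / 2) ⊆ ball s r₀ := ball_subset_ball' (by linarith)
  obtain ⟨C, hC0, hC⟩ := bc (R := r₀ / 2) (r := 3 * r₀ / 8) (M := M) (B := B) (by positivity)
    (by linarith)
  have hb : ∀ᶠ k in p, ∀ w ∈ ball s' (3 * r₀ / 8), ‖F k w‖ ≤ C := by
    filter_upwards [hF, hM, hB] with k h1 h2 h3
    exact hC s' (F k) h1.differentiableOn (fun w hw => h2 w (hsub hw)) (h3 s' (mem_ball_self hr'))
  have hsub2 : ball s (r₀ / 16) ⊆ ball s' (5 * r₀ / 16) := ball_subset_ball' (by linarith)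
  have hsub3 : ball s' (5 * r₀ / 16) ⊆ ball s' (3 * r₀ / 8) := ball_subset_ball (by linarith)
  refine ⟨r₀ / 16, by positivity, ⟨C, ?_⟩, ?_⟩
  · filter_upwards [hb] with k hk w hw
    exact hk w (hsub3 (hsub2 hw))
  · intro u hu
    obtain ⟨η, hη, hηu⟩ := Metric.mem_uniformity_dist.1 hu
    obtain ⟨ε, hε, h4⟩ := two_const (R := 3 * r₀ / 8) (ρ := r') (r := 5 * r₀ / 16)
      (C := 2 * C) (η := η / 2) hr' (by positivity) (by linarith) (by positivity) (by positivity)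
    have hc' := hc {q | dist q.1 q.2 < ε} (Metric.dist_mem_uniformity hε)
    have h5 : ∀ᶠ m : κ × κ in p ×ˢ p, (Differentiable ℂ (F m.1) ∧
        ∀ w ∈ ball s' (3 * r₀ / 8), ‖F m.1 w‖ ≤ C) ∧ (Differentiable ℂ (F m.2) ∧
        ∀ w ∈ ball s' (3 * r₀ / 8), ‖F m.2 w‖ ≤ C) := (hF.and hb).prod_mk (hF.and hb)
    filter_upwards [hc', h5] with m h6 h7 w hw
    obtain ⟨⟨a1, a2⟩, a3, a4⟩ := h7
    apply hηu
    rw [dist_eq_norm]
    have h8 := h4 s' (fun v => F m.1 v - F m.2 v) (a1.sub a3).differentiableOn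
      (fun v hv => (norm_sub_le _ _).trans (by have := a2 v hv; have := a4 v hv; linarith))
      (fun v hv => by
        have h9 : dist (F m.1 v) (F m.2 v) < ε := h6 v hv
        rw [dist_eq_norm] at h9
        exact h9.le) w (hsub2 hw)
    have h9 : ‖F m.1 w - F m.2 w‖ ≤ η / 2 := h8
    show ‖F m.1 w - F m.2 w‖ < η
    linarith

/-- **Propagation** -/
theorem propagate [NeBot p] (hF : ∀ᶠ k in p, Differentiable ℂ (F k)) {g : ℂ → ℂ} {σ₀ : ℝ}
    (hu : ∀ σ : ℝ, σ₀ < σ → TendstoUniformlyOn F g p {s | σ ≤ s.re})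
    (hb : ∀ σ : ℝ, σ₀ < σ → ∃ B : ℝ, ∀ s : ℂ, σ ≤ s.re → ‖g s‖ ≤ B)
    {D : Set ℂ} (hD : IsOpen D) (hDr : ∀ s ∈ D, ∀ x : ℝ, 0 ≤ x → s + x ∈ D)
    (hM : ∀ s ∈ D, ∃ r > 0, ∃ M : ℝ, ∀ᶠ k in p, ∀ w ∈ ball s r, (F k w).re ≤ M) :
    ∃ Φ : ℂ → ℂ, DifferentiableOn ℂ Φ D ∧ TendstoLocallyUniformlyOn F Φ p D ∧
      ∀ s ∈ D, σ₀ < s.re → Φ s = g s := by
  have hright : ∀ s : ℂ, σ₀ < s.re → s ∈ Good F p := by
    intro s hs
    set σ := (σ₀ + s.re) / 2 with hσ
    have h1 : σ₀ < σ := by rw [hσ]; linarith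
    have hsub : ball s (s.re - σ) ⊆ {s | σ ≤ s.re} := by
      intro w hw
      rw [mem_ball, dist_eq_norm] at hw
      have h2 := (Complex.abs_re_le_norm (w - s)).trans_lt hw
      rw [Complex.sub_re, abs_lt] at h2
      show σ ≤ w.re
      linarith [h2.1]
    obtain ⟨B, hB⟩ := hb σ h1
    refine ⟨s.re - σ, by rw [hσ]; linarith, ⟨B + 1, ?_⟩, ?_⟩
    · have h3 := Metric.tendstoUniformlyOn_iff.1 (hu σ h1) 1 one_pos
      filter_upwards [h3] with k hk w hw
      have h4 := hk w (hsub hw)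
      have h5 := hB w (hsub hw)
      rw [dist_eq_norm] at h4
      have h6 := norm_sub_norm_le (F k w) (g w)
      rw [norm_sub_rev] at h6
      linarith
    · exact ((hu σ h1).mono hsub).uniformCauchySeqOn
  have hDA : D ⊆ Good F p := by
    intro s hs
    set ray : Set ℂ := (fun x : ℝ => s + x) '' Ici 0 with hray
    have h1 : IsPreconnected ray := isPreconnected_Ici.image _ (by fun_prop)
    have h2 : ray ⊆ D := by
      rintro _ ⟨x, hx, rfl⟩
      exact hDr s hs x hx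
    have h3 : ray ⊆ Good F p := by
      refine h1.subset_of_closure_inter_subset isOpen_good ?_ ?_
      · refine ⟨s + ((|σ₀ - s.re| + 1 : ℝ) : ℂ), ⟨_, by show (0 : ℝ) ≤ _; positivity, rfl⟩, ?_⟩
        apply hright
        rw [Complex.add_re, Complex.ofReal_re]
        have := le_abs_self (σ₀ - s.re)
        linarith
      · rintro v ⟨hv1, hv2⟩
        obtain ⟨r, hr, M, hrM⟩ := hM v (h2 hv2)
        exact good_step hF hr hrM hv1
    exact h3 ⟨0, by simp, by simp⟩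
  have hlim : ∀ s ∈ D, ∃ y : ℂ, Tendsto (fun k => F k s) p (𝓝 y) := by
    intro s hs
    obtain ⟨r, hr, -, hc⟩ := hDA hs
    exact cauchy_map_iff_exists_tendsto.1 (hc.cauchy_map (mem_ball_self hr))
  choose! Φ hΦ using hlim
  have hloc : TendstoLocallyUniformlyOn F Φ p D := by
    intro u huu s hs
    obtain ⟨r, hr, -, hc⟩ := hDA hs
    have h1 : TendstoUniformlyOn F Φ p (D ∩ ball s r) :=
      (hc.mono inter_subset_right).tendstoUniformlyOn_of_tendsto fun w hw => hΦ w hw.1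
    exact ⟨D ∩ ball s r, inter_mem self_mem_nhdsWithin (mem_nhdsWithin_of_mem_nhds
      (ball_mem_nhds s hr)), h1 u huu⟩
  refine ⟨Φ, ?_, hloc, ?_⟩
  · exact hloc.differentiableOn (hF.mono fun k hk => hk.differentiableOn) hD
  · intro s hs hs1
    refine tendsto_nhds_unique (hΦ s hs) ?_
    exact (hu s.re hs1).tendsto_at (by show s.re ≤ s.re; exact le_rfl)

end Pool.Agent.Q45.CT
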