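import Pool.Agent.Q45.CT.Rep
import Pool.Agent.Q45.CT.Two

/-! A zero-free continuation makes the means bounded. -/

set_option autoImplicit false

namespace Pool.Agent.Q45.CT

open Complex MeasureTheory Filter Topology Set
open Pool.Agent.W189.ML

/-- A continuous logarithm of a differentiable function is differentiable. -/
theorem log_diff {f Q : ℂ → ℂ} {V : Set ℂ} (hV : IsOpen V) (hf : ContinuousOn f V)
    (hfQ : EqOn (Complex.exp ∘ f) Q V) (hQ : ∀ z ∈ V, DifferentiableAt ℂ Q z) :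
    ∀ z ∈ V, DifferentiableAt ℂ f z := by
  intro z hz
  have hfc : ContinuousAt f z := hf.continuousAt (hV.mem_nhds hz)
  have hQz : Q z ≠ 0 := by
    rw [← hfQ hz]
    exact Complex.exp_ne_zero _
  have hev : f =ᶠ[𝓝 z] fun w => f z + Complex.log (Q w / Q z) := by
    have h1 : ∀ᶠ w in 𝓝 z, ‖f w - f z‖ < 1 := by
      have h2 : Tendsto (fun w => ‖f w - f z‖) (𝓝 z) (𝓝 0) := by
        have h3 : Tendsto f (𝓝 z) (𝓝 (f z)) := hfc
        have h4 := (h3.sub_const (f z)).norm
        simpa using h4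
      exact h2.eventually (gt_mem_nhds one_pos)
    filter_upwards [h1, hV.mem_nhds hz] with w hw hwV
    have h2 : Q w / Q z = Complex.exp (f w - f z) := by
      rw [← hfQ hwV, ← hfQ hz, Complex.exp_sub]
      rfl
    have h3 : |(f w - f z).im| < 1 := (Complex.abs_im_le_norm _).trans_lt hw
    rw [abs_lt] at h3
    have hpi := Real.pi_gt_three
    rw [h2, Complex.log_exp (by linarith) (by linarith)]
    ring
  refine DifferentiableAt.congr_of_eventuallyEq ?_ hev
  refine (differentiableAt_const _).add ?_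
  refine DifferentiableAt.clog ((hQ z hz).div_const _) ?_
  rw [div_self hQz]
  exact Complex.one_mem_slitPlane

/-- the branch of the logarithm of `G` on a convex set which continues `g` -/
theorem branch {σ₀ : ℝ} {g G : ℂ → ℂ} {V : Set ℂ} (hV : IsOpen V) (hVc : Convex ℝ V)
    {p : ℂ} (hp : p ∈ V)
    (hG : ∀ z ∈ V, DifferentiableAt ℂ G z) (hG0 : ∀ z ∈ V, G z ≠ 0)
    (hg : DifferentiableOn ℂ g {s | σ₀ < s.re})
    (hGg : ∀ z ∈ V, σ₀ < z.re → G z = exp (g z)) :
    ∃ f : ℂ → ℂ, (∀ z ∈ V, DifferentiableAt ℂ f z) ∧ ∀ z ∈ V, σ₀ < z.re → f z = g z := by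
  have hopen : IsOpen {z : ℂ | σ₀ < z.re} := isOpen_lt continuous_const Complex.continuous_re
  have hVsc : IsSimplyConnected V := by
    have h1 : ContractibleSpace V := hVc.contractibleSpace ⟨_, hp⟩
    exact (inferInstance : SimplyConnectedSpace V)
  obtain ⟨f, hfc, hfQ⟩ := Complex.exists_continuousOn_eqOn_exp_comp hVsc hV (g := G)
    (fun z hz => (hG z hz).continuousAt.continuousWithinAt) (by
      rintro ⟨z, hz, hz0⟩
      exact hG0 z hz hz0)
  have hfd := log_diff hV hfc hfQ hG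
  set W : Set ℂ := V ∩ {z | σ₀ < z.re} with hW
  have hWo : IsOpen W := hV.inter hopen
  have hWc : Convex ℝ W := hVc.inter (convex_halfSpace_re_gt σ₀)
  have hgd : ∀ z ∈ W, DifferentiableAt ℂ g z := fun z hz =>
    hg.differentiableAt (hopen.mem_nhds hz.2)
  have hderiv : ∀ z ∈ W, deriv (fun z => f z - g z) z = 0 := by
    intro z hz
    have h1 : Complex.exp (f z) = G z := hfQ hz.1
    have h2 : HasDerivAt (fun w => Complex.exp (f w)) (Complex.exp (f z) * deriv f z) z :=
      (hfd z hz.1).hasDerivAt.cexp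
    have h3 : HasDerivAt (fun w => Complex.exp (g w)) (Complex.exp (g z) * deriv g z) z :=
      (hgd z hz).hasDerivAt.cexp
    have h4 : (fun w => Complex.exp (f w)) =ᶠ[𝓝 z] fun w => Complex.exp (g w) := by
      filter_upwards [hWo.mem_nhds hz] with w hw
      rw [← hGg w hw.1 hw.2]
      exact hfQ hw.1
    have h5 := (h2.congr_of_eventuallyEq h4.symm).unique h3
    rw [← hGg z hz.1 hz.2, h1] at h5
    have h6 := mul_left_cancel₀ (hG0 z hz.1) h5
    have h7 := ((hfd z hz.1).hasDerivAt.sub (hgd z hz).hasDerivAt).deriv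
    have h8 : deriv (fun z => f z - g z) z = deriv f z - deriv g z := h7
    rw [h8, h6, sub_self]
  obtain ⟨κ, hκ⟩ := hWo.exists_is_const_of_deriv_eq_zero hWc.isPreconnected
    (f := fun z => f z - g z)
    (fun z hz => ((hfd z hz.1).sub (hgd z hz)).differentiableWithinAt)
    (fun z hz => hderiv z hz)
  refine ⟨fun z => f z - κ, fun z hz => (hfd z hz).sub_const κ, fun z hz hz1 => ?_⟩
  have h1 : f z - g z = κ := hκ z ⟨hz, hz1⟩
  show f z - κ = g z
  rw [← h1]
  ring

/-- **A zero-free continuation makes the means bounded.** -/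
theorem back {σ₀ : ℝ} {g : ℂ → ℂ} {m : ℝ → ℂ → ℂ} (h : Rep σ₀ g m) {D : Set ℂ} (hD : IsOpen D)
    (hDr : ∀ s ∈ D, ∀ x : ℝ, 0 ≤ x → s + x ∈ D) {G : ℂ → ℂ} (hG : DifferentiableOn ℂ G D)
    (hG0 : ∀ s ∈ D, G s ≠ 0) (hGe : ∀ s ∈ D, σ₀ < s.re → G s = exp (g s)) :
    ∀ s ∈ D, ∃ r > 0, ∃ B T₀ : ℝ, ∀ T ≥ T₀, ∀ w ∈ Metric.ball s r, ‖m T w‖ ≤ B := by
  intro s hs
  obtain ⟨r₀, hr₀, hsub⟩ := Metric.isOpen_iff.1 hD s hs
  set r := r₀ / 2 with hr
  have hr0 : 0 < r := by positivity
  clear_value r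
  set V : Set ℂ := {z | s.re - r < z.re ∧ s.im - r < z.im ∧ z.im < s.im + r} with hV
  have hVo : IsOpen V := by
    refine (isOpen_lt continuous_const Complex.continuous_re).inter
      ((isOpen_lt continuous_const Complex.continuous_im).inter
        (isOpen_lt Complex.continuous_im continuous_const))
  have hVc : Convex ℝ V :=
    (convex_halfSpace_re_gt (s.re - r)).inter
      ((convex_halfSpace_im_gt (s.im - r)).inter (convex_halfSpace_im_lt (s.im + r)))
  have hVD : V ⊆ D := by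
    rintro z ⟨h1, h2, h3⟩
    set x : ℝ := max (z.re - s.re) 0 with hx
    have hx0 : 0 ≤ x := le_max_right _ _
    have h4 : z = (z - x) + x := by ring
    rw [h4]
    refine hDr _ (hsub ?_) x hx0
    rw [Metric.mem_ball, dist_eq_norm]
    have h5 := Complex.norm_le_abs_re_add_abs_im (z - x - s)
    have h6 : |(z - x - s).re| < r := by
      rw [Complex.sub_re, Complex.sub_re, Complex.ofReal_re]
      rcases le_total (z.re - s.re) 0 with h7 | h7
      · rw [hx, max_eq_right h7, abs_lt]; constructor <;> linarith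
      · rw [hx, max_eq_left h7, show z.re - (z.re - s.re) - s.re = 0 by ring, abs_zero]
        exact hr0
    have h7 : |(z - x - s).im| < r := by
      rw [Complex.sub_im, Complex.sub_im, Complex.ofReal_im, sub_zero, abs_lt]
      constructor <;> linarith
    have h8 : r₀ = 2 * r := by rw [hr]; ring
    linarith
  have hpV : s + ((|σ₀ - s.re| + 1 : ℝ) : ℂ) ∈ V := by
    refine ⟨?_, ?_, ?_⟩
    · rw [Complex.add_re, Complex.ofReal_re]
      have := abs_nonneg (σ₀ - s.re)
      linarith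
    · rw [Complex.add_im, Complex.ofReal_im]; linarith
    · rw [Complex.add_im, Complex.ofReal_im]; linarith
  obtain ⟨f, hfd, hfg⟩ := branch (g := g) (G := G) hVo hVc hpV
    (fun z hz => hG.differentiableAt (hD.mem_nhds (hVD hz))) (fun z hz => hG0 z (hVD hz)) h.diff
    (fun z hz h1 => hGe z (hVD hz) h1)
  -- the bound on the smaller half strip
  obtain ⟨B₁, hB₁⟩ := h.bdd (σ₀ + 1) (by linarith)
  set K : Set ℂ := Icc (s.re - r / 2) (σ₀ + 1) ×ℂ Icc (s.im - r / 2) (s.im + r / 2) with hK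
  have hKc : IsCompact K := isCompact_Icc.reProdIm isCompact_Icc
  have hKV : K ⊆ V := by
    rintro z ⟨h1, h2⟩
    refine ⟨?_, ?_, ?_⟩
    · have := h1.1; linarith
    · have := h2.1; linarith
    · have := h2.2; linarith
  obtain ⟨B₂, hB₂⟩ := hKc.exists_bound_of_continuousOn
    (fun z hz => (hfd z (hKV hz)).continuousAt.continuousWithinAt)
  set M : ℝ := |B₁| + |B₂| with hM
  have hfM : ∀ z : ℂ, s.re - r / 2 ≤ z.re → |z.im - s.im| ≤ r / 2 → ‖f z‖ ≤ M := by
    intro z h1 h2
    rw [abs_le] at h2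
    by_cases h3 : z.re ≤ σ₀ + 1
    · have := hB₂ z ⟨⟨h1, h3⟩, ⟨by linarith, by linarith⟩⟩
      have := le_abs_self B₂
      have := abs_nonneg B₁
      linarith
    · push Not at h3
      have hzV : z ∈ V := ⟨by linarith, by linarith, by linarith⟩
      rw [hfg z hzV (by linarith)]
      have := hB₁ z h3.le
      have := le_abs_self B₁
      have := abs_nonneg B₂
      linarith
  have hpi := Real.pi_pos
  refine ⟨r / 4, by positivity, (Real.exp (Real.exp 0) + 1) * M, 4 * Real.pi / r + 1,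
    fun T hT w hw => ?_⟩
  have hT0 : 0 < T := by
    have : 0 < 4 * Real.pi / r := by positivity
    linarith
  have hTr : Real.pi / T ≤ r / 4 := by
    rw [div_le_iff₀ hT0]
    have h1 : 4 * Real.pi / r ≤ T := by linarith
    rw [div_le_iff₀ hr0] at h1
    linarith
  rw [Metric.mem_ball, dist_eq_norm] at hw
  have hwre := (Complex.abs_re_le_norm (w - s)).trans_lt hw
  have hwim := (Complex.abs_im_le_norm (w - s)).trans_lt hw
  rw [Complex.sub_re, abs_lt] at hwre
  rw [Complex.sub_im, abs_lt] at hwim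
  have hdre : ∀ z : ℂ, (w + z / T).re = w.re + z.re / T := fun z => by simp
  have hdim : ∀ z : ℂ, (w + z / T).im = w.im + z.im / T := fun z => by simp
  have hreg : ∀ z ∈ HS 0, s.re - r / 2 ≤ (w + z / T).re ∧ |(w + z / T).im - s.im| ≤ r / 2 := by
    intro z hz
    constructor
    · rw [hdre]
      have : 0 ≤ z.re / T := div_nonneg hz.1 hT0.le
      linarith
    · rw [hdim]
      have h1 : |z.im / T| ≤ r / 4 := by
        rw [abs_div, abs_of_pos hT0]
        exact (div_le_div_of_nonneg_right hz.2 hT0.le).trans hTr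
      rw [abs_le] at h1 ⊢
      constructor <;> linarith [h1.1, h1.2]
  have hregV : ∀ z ∈ HS 0, w + z / T ∈ V := by
    intro z hz
    obtain ⟨h1, h2⟩ := hreg z hz
    rw [abs_le] at h2
    exact ⟨by linarith, by linarith [h2.1], by linarith [h2.2]⟩
  have hbound : ∀ z ∈ HS 0, ‖f (w + z / T)‖ ≤ M := fun z hz =>
    hfM _ (hreg z hz).1 (hreg z hz).2
  have hfdiff : ∀ z ∈ HS 0, DifferentiableAt ℂ (fun z : ℂ => f (w + z / T)) z := fun z hz =>
    DifferentiableAt.comp (g := f) (f := fun z : ℂ => w + z / T) z (hfd _ (hregV z hz)) (by fun_prop)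
  have hM0 : 0 ≤ M := by positivity
  have hadm : Adm 0 (fun z => f (w + z / T)) :=
    ⟨fun z hz => (hfdiff z hz).continuousAt.continuousWithinAt, M, 0, hM0, le_rfl, fun z hz => by
      have := hbound z hz; linarith⟩
  set b : ℝ := T * (|σ₀ - w.re| + 1) with hb
  have hb0 : 0 ≤ b := by positivity
  have hbT : b / T = |σ₀ - w.re| + 1 := by rw [hb]; field_simp
  have hwb : σ₀ < w.re + b / T := by
    rw [hbT]
    have := le_abs_self (σ₀ - w.re)
    linarith
  have e1 : J 0 (fun z => f (w + z / T)) = J b (fun z => f (w + z / T)) :=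
    J_shift' le_rfl hb0 hadm fun z hz => (hfdiff z hz).differentiableWithinAt
  have e2 : J b (fun z => f (w + z / T)) = J b (fun z => g (w + z / T)) := by
    refine J_congr fun z hz => hfg _ (hregV z (HS_mono hb0 hz)) ?_
    rw [hdre]
    have := div_le_div_of_nonneg_right hz.1 hT0.le
    linarith
  rw [← h.rep T hT0 b hb0 w hwb, ← e2, ← e1]
  exact norm_J_le le_rfl hbound

/-- **Holomorphic continuation without zeros: the core theorem.** -/
theorem core {σ₀ : ℝ} {g : ℂ → ℂ} {m : ℝ → ℂ → ℂ} (h : Rep σ₀ g m) {D : Set ℂ} (hD : IsOpen D)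
    (hDr : ∀ s ∈ D, ∀ x : ℝ, 0 ≤ x → s + x ∈ D) :
    List.TFAE [
      ∃ G : ℂ → ℂ, DifferentiableOn ℂ G D ∧ (∀ s ∈ D, G s ≠ 0) ∧ ∀ s ∈ D, σ₀ < s.re → G s = exp (g s),
      ∃ Φ : ℂ → ℂ, DifferentiableOn ℂ Φ D ∧ TendstoLocallyUniformlyOn m Φ atTop D ∧
        ∀ s ∈ D, σ₀ < s.re → Φ s = g s,
      ∃ T : ℕ → ℝ, Tendsto T atTop atTop ∧ ∀ s ∈ D, ∃ r > 0, ∃ M : ℝ, ∀ᶠ n : ℕ in atTop,
        ∀ w ∈ Metric.ball s r, (m (T n) w).re ≤ M] := by
  have hent : ∀ᶠ T : ℝ in atTop, Differentiable ℂ (m T) := by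
    filter_upwards [eventually_gt_atTop 0] with T hT
    exact h.ent T hT
  tfae_have 1 → 2 := by
    rintro ⟨G, hG, hG0, hGe⟩
    refine propagate hent h.unif h.bdd hD hDr fun s hs => ?_
    obtain ⟨r, hr, B, T₀, hB⟩ := back h hD hDr hG hG0 hGe s hs
    refine ⟨r, hr, B, ?_⟩
    filter_upwards [eventually_ge_atTop T₀] with T hT w hw
    exact (Complex.re_le_norm _).trans (hB T hT w hw)
  tfae_have 2 → 1 := by
    rintro ⟨Φ, h1, -, h3⟩
    exact ⟨fun s => exp (Φ s), h1.cexp, fun s _ => exp_ne_zero _, fun s hs h4 => by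
      show exp (Φ s) = exp (g s)
      rw [h3 s hs h4]⟩
  tfae_have 1 → 3 := by
    rintro ⟨G, hG, hG0, hGe⟩
    refine ⟨fun n => n, tendsto_natCast_atTop_atTop, fun s hs => ?_⟩
    obtain ⟨r, hr, B, T₀, hB⟩ := back h hD hDr hG hG0 hGe s hs
    refine ⟨r, hr, B, ?_⟩
    filter_upwards [tendsto_natCast_atTop_atTop.eventually (eventually_ge_atTop T₀)] with n hn w hw
    exact (Complex.re_le_norm _).trans (hB n hn w hw)
  tfae_have 3 → 1 := by
    rintro ⟨T, hT, hM⟩
    obtain ⟨Φ, h1, -, h3⟩ := propagate (p := atTop) (F := fun n => m (T n)) (g := g) (σ₀ := σ₀)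
      (hT.eventually hent) (fun σ hσ => fun u hu => hT.eventually (h.unif σ hσ u hu)) h.bdd hD hDr
      fun s hs => by
        obtain ⟨r, hr, M, hM'⟩ := hM s hs
        exact ⟨r, hr, M, hM'⟩
    exact ⟨fun s => exp (Φ s), h1.cexp, fun s _ => exp_ne_zero _, fun s hs h4 => by
      show exp (Φ s) = exp (g s)
      rw [h3 s hs h4]⟩
  tfae_finish

end Pool.Agent.Q45.CT
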