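import Pool.Agent.Q45.CT.Glob
import Pool.Agent.Q45.ML.Euler

/-! The criterion for Euler products, and the divisor. -/

set_option autoImplicit false

namespace Pool.Agent.Q45.CT

open Complex MeasureTheory Filter Topology Set
open Pool.Agent.W189.ML Pool.Agent.Q45.ML

variable {σ₀ : ℝ} {g : ℂ → ℂ} {m : ℝ → ℂ → ℂ}

theorem cf_order_zero {h : ℝ} (hh : 0 < h) {u z : ℂ} (hz : cf h u z = 0) :
    meromorphicOrderAt (cf h u) z = (1 : ℤ) := by
  have h1 : exp (-(h * (z - u))) = 1 := (sub_eq_zero.1 hz).symm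
  have h2 : cf h u = cf h z := by
    funext s
    unfold cf
    have h3 : -((h : ℂ) * (s - u)) = -(h * (s - z)) + -(h * (z - u)) := by ring
    rw [h3, Complex.exp_add, h1, mul_one]
  rw [h2]
  exact cf_order_self hh z

open scoped Classical in
/-- the divisor of the continuation can be read off from the corrections -/
theorem divisor (H : Rep σ₀ g m) {F : ℂ → ℂ} (hF : MeromorphicOn F univ)
    (hFg : ∀ s : ℂ, σ₀ < s.re → F s = exp (g s)) {R : ℝ} (hR : 0 < R) (hRσ : σ₀ < R) {Z : Finset ℂ}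
    {n : ℂ → ℤ} {T : ℕ → ℝ} {M : ℝ} (hZ : ∀ u ∈ Z, u.re ≤ σ₀) (hT : Tendsto T atTop atTop)
    (hM : ∀ k : ℕ, ∀ s : ℂ, |s.re| ≤ R → |s.im| ≤ R →
      (corrected m Z n (1 / (R + 1)) (T k) s).re ≤ M) {s : ℂ} (hs1 : |s.re| < R) (hs2 : |s.im| < R) :
    meromorphicOrderAt F s =
      ((∑ u ∈ Z with exp ((s - u) / (R + 1)) = 1, n u : ℤ) : WithTop ℤ) := by
  have hh : 0 < 1 / (R + 1) := by positivity
  obtain ⟨Φ, h1, h2⟩ := fwd_local H hh hZ (isOpen_Q R) Q_right hT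
    (local_of_square (H.corrected n hh hZ) hRσ hT (Eventually.of_forall hM))
  have hsQ : s ∈ Q R := ⟨(abs_lt.1 hs1).1, hs2⟩
  set B : ℂ → ℂ := fun s => exp (Φ s) * fac Z n (1 / (R + 1)) s with hB
  have hΦa : ∀ z ∈ Q R, AnalyticAt ℂ (fun s => exp (Φ s)) z := fun z hz =>
    (h1.analyticOnNhd (isOpen_Q _) z hz).cexp
  have hBm : MeromorphicOn B (Q R) := fun z hz => ((hΦa z hz).meromorphicAt).mul (fac_mero Z n _ z)
  have hm : MeromorphicOn (F - B) (Q R) := (hF.mono_set (subset_univ _)).sub hBm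
  set p : ℂ := ((|σ₀| + 1 : ℝ) : ℂ) with hp
  have hpre : p.re = |σ₀| + 1 := Complex.ofReal_re _
  have hpim : p.im = 0 := Complex.ofReal_im _
  have hpQ : p ∈ Q R := by
    refine ⟨?_, ?_⟩
    · rw [hpre]
      have := abs_nonneg σ₀
      linarith
    · rw [hpim, abs_zero]; exact hR
  have hpσ : σ₀ < p.re := by
    rw [hpre]
    have := le_abs_self σ₀
    linarith
  have htop : meromorphicOrderAt (F - B) p = ⊤ := by
    rw [meromorphicOrderAt_eq_top_iff]
    have hO : IsOpen (Q R ∩ {s : ℂ | σ₀ < s.re}) :=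
      (isOpen_Q _).inter (isOpen_lt continuous_const Complex.continuous_re)
    have : ∀ᶠ z in 𝓝 p, (F - B) z = 0 := by
      filter_upwards [hO.mem_nhds ⟨hpQ, hpσ⟩] with z hz
      rw [Pi.sub_apply, hFg z hz.2, hB]
      show exp (g z) - exp (Φ z) * fac Z n (1 / (R + 1)) z = 0
      rw [h2 z hz.1 hz.2, sub_self]
    exact this.filter_mono nhdsWithin_le_nhds
  have hst : meromorphicOrderAt (F - B) s = ⊤ := by
    by_contra hne
    exact hm.meromorphicOrderAt_ne_top_of_isPreconnected (Q_conn _) hsQ hpQ hne htop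
  rw [meromorphicOrderAt_eq_top_iff] at hst
  have heq : F =ᶠ[𝓝[≠] s] B := by
    filter_upwards [hst] with z hz
    exact sub_eq_zero.1 hz
  rw [meromorphicOrderAt_congr heq]
  have h3 : meromorphicOrderAt B s = meromorphicOrderAt (fun s => exp (Φ s)) s +
      meromorphicOrderAt (fac Z n (1 / (R + 1))) s :=
    meromorphicOrderAt_mul (hΦa s hsQ).meromorphicAt (fac_mero Z n _ s)
  have h4 : meromorphicOrderAt (fun s => exp (Φ s)) s = 0 :=
    ((hΦa s hsQ).meromorphicNFAt.meromorphicOrderAt_eq_zero_iff).2 (exp_ne_zero _)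
  have h5 : meromorphicOrderAt (fac Z n (1 / (R + 1))) s =
      ∑ u ∈ Z, meromorphicOrderAt (fun s => cf (1 / (R + 1)) u s ^ n u) s :=
    meromorphicOrderAt_fun_prod fun u _ => ((cf_an _ u s).meromorphicAt).zpow (n u)
  have h6 : ∀ u ∈ Z, meromorphicOrderAt (fun s => cf (1 / (R + 1)) u s ^ n u) s =
      ((if exp ((s - u) / (R + 1)) = 1 then n u else 0 : ℤ) : WithTop ℤ) := by
    intro u _
    have h7 : meromorphicOrderAt (fun s => cf (1 / (R + 1)) u s ^ n u) s =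
        ((n u : ℤ) : WithTop ℤ) * meromorphicOrderAt (cf (1 / (R + 1)) u) s :=
      meromorphicOrderAt_zpow (f := cf (1 / (R + 1)) u) (cf_an _ u s).meromorphicAt
    have h8 : cf (1 / (R + 1)) u s = 0 ↔ exp ((s - u) / (R + 1)) = 1 := by
      unfold cf
      have h9 : -(((1 / (R + 1) : ℝ) : ℂ) * (s - u)) = -((s - u) / (R + 1)) := by
        push_cast
        ring
      rw [h9, Complex.exp_neg, sub_eq_zero, eq_comm, inv_eq_one]
    rw [h7]
    by_cases hc : cf (1 / (R + 1)) u s = 0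
    · rw [cf_order_zero hh hc, if_pos (h8.1 hc), ← WithTop.coe_mul, mul_one]
    · rw [if_neg fun h10 => hc (h8.2 h10), cf_order_ne hc, mul_zero, WithTop.coe_zero]
  rw [h3, h4, zero_add, h5, Finset.sum_congr rfl h6, ← WithTop.coe_sum, Finset.sum_filter]

/-! ### Euler products -/

variable {P : Type} {n : ℕ} {q : P → ℝ} {α : P → Fin n → ℂ} {θ d : ℝ}

/-- `S_T(s) = ∑_{v, k ≥ 1} (∑_j α v j^k) / (k q_v^{ks} Γ(1 + k log q_v / T))` -/
noncomputable def emean (q : P → ℝ) (α : P → Fin n → ℂ) (T : ℝ) (s : ℂ) : ℂ :=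
  ∑' x : P × ℕ, (∑ j, α x.1 j ^ (x.2 + 1)) / (((x.2 : ℂ) + 1) * (q x.1 : ℂ) ^ (((x.2 : ℂ) + 1) * s) *
    (Real.Gamma (1 + ((x.2 : ℝ) + 1) * Real.log (q x.1) / T) : ℂ))

theorem eul_DS (E : Pool.Agent.Q45.ML.Eul n q α θ d) : DS (fq q) (ca α) (θ + d) :=
  ⟨E.fq_nonneg, fun _ hσ => E.summable hσ⟩

theorem emean_eq (E : Pool.Agent.Q45.ML.Eul n q α θ d) :
    emean q α = gmean (fq q) (ca α) := by
  funext T s
  unfold emean gmean
  refine tsum_congr fun x => ?_
  have hq0 := E.qpos x.1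
  have hqc : (q x.1 : ℂ) ≠ 0 := by exact_mod_cast hq0.ne'
  have h1 : exp (-(s * fq q x)) = ((q x.1 : ℂ) ^ (((x.2 : ℂ) + 1) * s))⁻¹ := by
    rw [Complex.cpow_def_of_ne_zero hqc, ← Complex.exp_neg, ← Complex.ofReal_log hq0.le]
    congr 1
    unfold fq
    push_cast
    ring
  rw [h1]
  unfold ca om fq
  rw [div_mul_eq_div_div, div_mul_eq_div_div]
  simp only [div_eq_mul_inv]
  push_cast
  ring

theorem eul_rep (E : Pool.Agent.Q45.ML.Eul n q α θ d) :
    Rep (θ + d) (gser (fq q) (ca α)) (emean q α) := by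
  have := E.countable
  rw [emean_eq E]
  exact (eul_DS E).toRep

theorem eul_exp (E : Pool.Agent.Q45.ML.Eul n q α θ d) {s : ℂ} (hs : θ + d < s.re) :
    HasProd (fun v => ∏ j, (1 - α v j * (q v : ℂ) ^ (-s))⁻¹) (exp (gser (fq q) (ca α) s)) :=
  E.hasProd hs

end Pool.Agent.Q45.CT
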