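import Pool.Agent.Q45.CT.Forms

/-! Euler products with finitely many places at which only a weak bound for the parameters is known. -/

set_option autoImplicit false

namespace Pool.Agent.Q45.CT

open Complex MeasureTheory Filter Topology Set
open Pool.Agent.W189.ML Pool.Agent.Q45.ML

/-- data of an Euler product, with a finite exceptional set of places -/
structure EulF {P : Type} (n : ℕ) (q : P → ℝ) (α : P → Fin n → ℂ) (θ d : ℝ) (S : Finset P) : Prop where
  d_nonneg : 0 ≤ d
  two_le : ∀ v, 2 ≤ q v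
  sum : ∀ σ : ℝ, d < σ → Summable fun v => q v ^ (-σ)
  bound : ∀ v, v ∉ S → ∀ j, ‖α v j‖ ≤ q v ^ θ
  weak : ∀ v j, ‖α v j‖ ≤ q v ^ (θ + d)

variable {P : Type} {n : ℕ} {q : P → ℝ} {α : P → Fin n → ℂ} {θ d : ℝ} {S : Finset P}

theorem EulF.qpos (E : EulF n q α θ d S) (v : P) : 0 < q v := by linarith [E.two_le v]

theorem EulF.countable (E : EulF n q α θ d S) : Countable P := by
  have h := (E.sum (d + 1) (by linarith)).countable_support
  have h1 : Function.support (fun v => q v ^ (-(d + 1))) = univ := by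
    ext v
    simp only [Function.mem_support, mem_univ, iff_true]
    exact (Real.rpow_pos_of_pos (E.qpos v) _).ne'
  rw [h1] at h
  exact countable_univ_iff.1 h

theorem EulF.fq_nonneg (E : EulF n q α θ d S) (x : P × ℕ) : 0 ≤ fq q x := by
  unfold fq
  have := Real.log_nonneg (by linarith [E.two_le x.1] : 1 ≤ q x.1)
  positivity

theorem EulF.exp_fq (E : EulF n q α θ d S) (σ : ℝ) (x : P × ℕ) :
    Real.exp (-(σ * fq q x)) = (q x.1 ^ (-σ)) ^ (x.2 + 1) := by
  have hq0 := E.qpos x.1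
  rw [← Real.rpow_natCast, ← Real.rpow_mul hq0.le, Real.rpow_def_of_pos hq0]
  unfold fq
  congr 1
  push_cast
  ring

open scoped Classical in
/-- the exponent at `v` -/
noncomputable def ex (θ d : ℝ) (S : Finset P) (v : P) : ℝ := if v ∈ S then θ + d else θ

theorem EulF.ex_le (E : EulF n q α θ d S) (v : P) : ex θ d S v ≤ θ + d := by
  unfold ex
  have := E.d_nonneg
  split_ifs <;> linarith

theorem EulF.bd (E : EulF n q α θ d S) (v : P) (j : Fin n) : ‖α v j‖ ≤ q v ^ ex θ d S v := by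
  unfold ex
  split_ifs with h
  · exact E.weak v j
  · exact E.bound v h j

theorem EulF.ca_le (E : EulF n q α θ d S) (x : P × ℕ) :
    ‖ca α x‖ ≤ n * (q x.1 ^ ex θ d S x.1) ^ (x.2 + 1) := by
  unfold ca
  have h0 : ‖(x.2 + 1 : ℂ)‖ = x.2 + 1 := by
    rw [show (x.2 + 1 : ℂ) = ((x.2 + 1 : ℕ) : ℂ) by push_cast; ring, Complex.norm_natCast]
    push_cast; ring
  rw [norm_div, h0, div_le_iff₀ (by positivity)]
  have h1 : ‖∑ j, α x.1 j ^ (x.2 + 1)‖ ≤ ∑ _j : Fin n, (q x.1 ^ ex θ d S x.1) ^ (x.2 + 1) := by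
    refine (norm_sum_le _ _).trans (Finset.sum_le_sum fun j _ => ?_)
    rw [norm_pow]
    exact pow_le_pow_left₀ (norm_nonneg _) (E.bd _ _) _
  rw [Finset.sum_const, Finset.card_univ, Fintype.card_fin, nsmul_eq_mul] at h1
  refine h1.trans ?_
  have h2 : 0 ≤ (n : ℝ) * (q x.1 ^ ex θ d S x.1) ^ (x.2 + 1) := by
    have := (E.qpos x.1).le
    positivity
  have h3 : (1 : ℝ) ≤ x.2 + 1 := by
    have : (0 : ℝ) ≤ x.2 := x.2.cast_nonneg
    linarith
  exact le_mul_of_one_le_right h2 h3

theorem EulF.term_le (E : EulF n q α θ d S) {σ : ℝ} (hσ : θ + d < σ) (x : P × ℕ) :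
    ‖ca α x‖ * Real.exp (-(σ * fq q x)) ≤
      n * q x.1 ^ (-(σ - ex θ d S x.1)) * ((2 : ℝ) ^ (-(σ - (θ + d)))) ^ x.2 := by
  have hq0 := E.qpos x.1
  rw [E.exp_fq]
  calc ‖ca α x‖ * (q x.1 ^ (-σ)) ^ (x.2 + 1)
      ≤ n * (q x.1 ^ ex θ d S x.1) ^ (x.2 + 1) * (q x.1 ^ (-σ)) ^ (x.2 + 1) := by
        gcongr
        exact E.ca_le x
    _ = n * (q x.1 ^ (-(σ - ex θ d S x.1))) ^ (x.2 + 1) := by
        rw [mul_assoc, ← mul_pow, ← Real.rpow_add hq0]
        congr 3
        ring
    _ = n * q x.1 ^ (-(σ - ex θ d S x.1)) * (q x.1 ^ (-(σ - ex θ d S x.1))) ^ x.2 := by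
        rw [pow_succ]; ring
    _ ≤ _ := by
        have h0 := E.ex_le x.1
        have h1 : q x.1 ^ (-(σ - ex θ d S x.1)) ≤ (2 : ℝ) ^ (-(σ - (θ + d))) :=
          (Real.rpow_le_rpow_of_nonpos (by norm_num) (E.two_le _) (by linarith)).trans
            (Real.rpow_le_rpow_of_exponent_le (by norm_num) (by linarith))
        gcongr

theorem EulF.sum_ex (E : EulF n q α θ d S) {σ : ℝ} (hσ : θ + d < σ) :
    Summable fun v => q v ^ (-(σ - ex θ d S v)) := by
  refine (E.sum (σ - θ) (by linarith)).congr_cofinite ?_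
  have h1 : ((S : Set P)ᶜ) ∈ cofinite := by
    rw [mem_cofinite, compl_compl]
    exact S.finite_toSet
  filter_upwards [h1] with v hv
  have hv' : v ∉ S := fun h => hv (Finset.mem_coe.2 h)
  unfold ex
  rw [if_neg hv']

theorem EulF.summable (E : EulF n q α θ d S) {σ : ℝ} (hσ : θ + d < σ) :
    Summable fun x => ‖ca α x‖ * Real.exp (-(σ * fq q x)) := by
  have hg : Summable fun k : ℕ => ((2 : ℝ) ^ (-(σ - (θ + d)))) ^ k :=
    summable_geometric_of_lt_one (by positivity)
      (Real.rpow_lt_one_of_one_lt_of_neg (by norm_num) (by linarith))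
  have h1 := ((E.sum_ex hσ).mul_left (n : ℝ)).mul_of_nonneg hg
    (fun v => by
      have := (E.qpos v).le
      show 0 ≤ (n : ℝ) * q v ^ (-(σ - ex θ d S v))
      positivity) (fun k => by positivity)
  exact Summable.of_nonneg_of_le (fun x => by positivity) (fun x => E.term_le hσ x) h1

theorem EulF.factor_sum (E : EulF n q α θ d S) {s : ℂ} (hs : θ + d < s.re) (v : P) :
    HasSum (fun k : ℕ => ca α (v, k) * Complex.exp (-(s * fq q (v, k))))
      (∑ j, -Complex.log (1 - α v j * (q v : ℂ) ^ (-s))) ∧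
    Complex.exp (∑ j, -Complex.log (1 - α v j * (q v : ℂ) ^ (-s))) =
      ∏ j, (1 - α v j * (q v : ℂ) ^ (-s))⁻¹ := by
  have hq0 := E.qpos v
  have hqc : (q v : ℂ) ≠ 0 := by exact_mod_cast hq0.ne'
  set x : ℂ := (q v : ℂ) ^ (-s) with hx
  have hb : ∀ j, ‖α v j * x‖ < 1 := by
    intro j
    rw [norm_mul, hx, Complex.norm_cpow_eq_rpow_re_of_pos hq0]
    calc ‖α v j‖ * q v ^ (-s).re ≤ q v ^ (θ + d) * q v ^ (-s).re := by
          gcongr
          exact E.weak v j
      _ = q v ^ (-(s.re - (θ + d))) := by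
          rw [← Real.rpow_add hq0, Complex.neg_re]
          congr 1
          ring
      _ < 1 := Real.rpow_lt_one_of_one_lt_of_neg (by linarith [E.two_le v]) (by linarith)
  have hterm : ∀ k : ℕ, ca α (v, k) * Complex.exp (-(s * fq q (v, k))) =
      ∑ j, (α v j * x) ^ (k + 1) / ((k + 1 : ℕ) : ℂ) := by
    intro k
    have e1 : x ^ (k + 1) = Complex.exp (-(s * fq q (v, k))) := by
      rw [hx, Complex.cpow_def_of_ne_zero hqc, ← Complex.exp_nat_mul]
      congr 1
      unfold fq
      rw [← Complex.ofReal_log hq0.le]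
      push_cast
      ring
    rw [← e1]
    unfold ca
    simp only [mul_pow]
    rw [← Finset.sum_div, ← Finset.sum_mul]
    push_cast
    ring
  have hs' : ∀ z : ℂ, ‖z‖ < 1 →
      HasSum (fun k : ℕ => z ^ (k + 1) / ((k + 1 : ℕ) : ℂ)) (-Complex.log (1 - z)) := by
    intro z hz
    have := Complex.hasSum_taylorSeries_neg_log hz
    rw [← hasSum_nat_add_iff' 1] at this
    simpa using this
  constructor
  · simp only [hterm]
    exact hasSum_sum fun j _ => hs' _ (hb j)
  · rw [Complex.exp_sum]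
    refine Finset.prod_congr rfl fun j _ => ?_
    have hne : 1 - α v j * x ≠ 0 := by
      intro h
      have := hb j
      rw [sub_eq_zero] at h
      rw [← h] at this
      simp at this
    rw [Complex.exp_neg, Complex.exp_log hne]

theorem EulF.csummable (E : EulF n q α θ d S) {s : ℂ} (hs : θ + d < s.re) :
    Summable fun x : P × ℕ => ca α x * Complex.exp (-(s * fq q x)) := by
  refine Summable.of_norm_bounded (E.summable hs) fun x => ?_
  rw [norm_mul, Complex.norm_exp]
  have : (-(s * fq q x)).re = -(s.re * fq q x) := by rw [Complex.neg_re, Complex.re_mul_ofReal]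
  rw [this]

/-- the Euler product is the exponential of the series -/
theorem EulF.hasProd (E : EulF n q α θ d S) {s : ℂ} (hs : θ + d < s.re) :
    HasProd (fun v => ∏ j, (1 - α v j * (q v : ℂ) ^ (-s))⁻¹) (exp (gser (fq q) (ca α) s)) := by
  have h1 := (E.csummable hs).hasSum
  have h2 := h1.prod_fiberwise (fun v => (E.factor_sum hs v).1)
  have h3 := h2.cexp
  have h4 : (Complex.exp ∘ fun v => ∑ j, -Complex.log (1 - α v j * (q v : ℂ) ^ (-s))) =
      fun v => ∏ j, (1 - α v j * (q v : ℂ) ^ (-s))⁻¹ := by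
    funext v
    exact (E.factor_sum hs v).2
  rw [h4] at h3
  exact h3

theorem EulF.rep (E : EulF n q α θ d S) : Rep (θ + d) (gser (fq q) (ca α)) (emean q α) := by
  have := E.countable
  have h0 : emean q α = gmean (fq q) (ca α) := by
    funext T s
    unfold emean gmean
    refine tsum_congr fun x => ?_
    have hq0 := E.qpos x.1
    have hqc : (q x.1 : ℂ) ≠ 0 := by exact_mod_cast hq0.ne'
    have h1 : exp (-(s * fq q x)) = ((q x.1 : ℂ) ^ (((x.2 : ℂ) + 1) * s))⁻¹ := by
      rw [Complex.cpow_def_of_ne_zero hqc, ← Complex.exp_neg, ← Complex.ofReal_log hq0.le]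
      congr 1
      unfold fq
      push_cast
      ring
    rw [h1]
    unfold ca om fq
    rw [div_mul_eq_div_div, div_mul_eq_div_div]
    simp only [div_eq_mul_inv]
    push_cast
    ring
  rw [h0]
  exact (DS.mk E.fq_nonneg fun _ hσ => E.summable hσ).toRep

end Pool.Agent.Q45.CT
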