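import Pool.Agent.Q45.CT.Eul

/-! The packaged criterion. -/

set_option autoImplicit false

namespace Pool.Agent.Q45.CT

open Complex MeasureTheory Filter Topology Set
open Pool.Agent.W189.ML Pool.Agent.Q45.ML

/-- The means `S` with the corrections `(Z, n)` are bounded above on the square `|Re s|, |Im s| ≤ R`, along the
sequence `T k → ∞`: `Re (S_T(s) + ∑_{u ∈ Z} n(u) C_T(s - u)) ≤ M` for `T = T k`, with
`C_T(z) = ∑_{k ≥ 1} e^{-khz}/(k Γ(1 + kh/T))`, `h = 1/(R+1)`, and `Re u ≤ σ₀` for `u ∈ Z`. -/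
def BoundedAbove (S : ℝ → ℂ → ℂ) (σ₀ R : ℝ) (Z : Finset ℂ) (n : ℂ → ℤ) (T : ℕ → ℝ) : Prop :=
  (∀ u ∈ Z, u.re ≤ σ₀) ∧ Tendsto T atTop atTop ∧ ∃ M : ℝ, ∀ k : ℕ, ∀ s : ℂ, |s.re| ≤ R → |s.im| ≤ R →
    (corrected S Z n (1 / (R + 1)) (T k) s).re ≤ M

/-- The means `S` with the corrections `(Z, n)` are bounded in absolute value on the square `|Re s|, |Im s| ≤ R`, for
all large `T`. -/
def BoundedOn (S : ℝ → ℂ → ℂ) (σ₀ R : ℝ) (Z : Finset ℂ) (n : ℂ → ℤ) : Prop :=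
  (∀ u ∈ Z, u.re ≤ σ₀) ∧ ∃ M T₀ : ℝ, ∀ T ≥ T₀, ∀ s : ℂ, |s.re| ≤ R → |s.im| ≤ R →
    ‖corrected S Z n (1 / (R + 1)) T s‖ ≤ M

variable {σ₀ : ℝ} {g L : ℂ → ℂ} {m : ℝ → ℂ → ℂ}

theorem forms_mero (H : Rep σ₀ g m) (hL : ∀ s : ℂ, σ₀ < s.re → L s = exp (g s)) :
    List.TFAE [
      ∃ F : ℂ → ℂ, MeromorphicOn F univ ∧ ∀ s : ℂ, σ₀ < s.re → F s = L s,
      ∀ R : ℝ, 0 < R → ∃ (Z : Finset ℂ) (n : ℂ → ℤ) (T : ℕ → ℝ), BoundedAbove m σ₀ R Z n T,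
      ∀ R : ℝ, 0 < R → ∃ (Z : Finset ℂ) (n : ℂ → ℤ), BoundedOn m σ₀ R Z n] := by
  have h := (plane H).1
  have e1 : (∃ F : ℂ → ℂ, MeromorphicOn F univ ∧ ∀ s : ℂ, σ₀ < s.re → F s = L s) ↔
      ∃ F : ℂ → ℂ, MeromorphicOn F univ ∧ ∀ s : ℂ, σ₀ < s.re → F s = exp (g s) := by
    refine exists_congr fun F => and_congr_right fun _ => forall₂_congr fun s hs => ?_
    rw [hL s hs]
  tfae_have 1 → 3 := by
    rw [e1]
    intro h1 R hR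
    have h13 := (h.out 0 2).1 h1
    obtain ⟨Z, n, M, T₀, h2, h3⟩ := h13 R hR
    exact ⟨Z, n, h2, M, T₀, h3⟩
  tfae_have 3 → 2 := by
    intro h1 R hR
    obtain ⟨Z, n, h2, M, T₀, h3⟩ := h1 R hR
    refine ⟨Z, n, fun k => T₀ + k, h2, tendsto_atTop_add_const_left _ _
      tendsto_natCast_atTop_atTop, M, fun k s h4 h5 => ?_⟩
    have h6 : T₀ + k ≥ T₀ := by
      have : (0 : ℝ) ≤ k := k.cast_nonneg
      linarith
    exact (Complex.re_le_norm _).trans (h3 _ h6 s h4 h5)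
  tfae_have 2 → 1 := by
    rw [e1]
    intro h1
    refine (h.out 0 1).2 fun R hR => ?_
    obtain ⟨Z, n, T, h2, h3, M, h4⟩ := h1 R hR
    exact ⟨Z, n, T, M, h2, h3, h4⟩
  tfae_finish

theorem forms_entire (H : Rep σ₀ g m) (hL : ∀ s : ℂ, σ₀ < s.re → L s = exp (g s)) :
    List.TFAE [
      ∃ F : ℂ → ℂ, Differentiable ℂ F ∧ ∀ s : ℂ, σ₀ < s.re → F s = L s,
      ∀ R : ℝ, 0 < R → ∃ (Z : Finset ℂ) (n : ℂ → ℤ) (T : ℕ → ℝ), (∀ u ∈ Z, 0 ≤ n u) ∧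
        BoundedAbove m σ₀ R Z n T,
      ∀ R : ℝ, 0 < R → ∃ (Z : Finset ℂ) (n : ℂ → ℤ), (∀ u ∈ Z, 0 ≤ n u) ∧
        BoundedOn m σ₀ R Z n] := by
  have h := (plane H).2
  have e1 : (∃ F : ℂ → ℂ, Differentiable ℂ F ∧ ∀ s : ℂ, σ₀ < s.re → F s = L s) ↔
      ∃ F : ℂ → ℂ, Differentiable ℂ F ∧ ∀ s : ℂ, σ₀ < s.re → F s = exp (g s) := by
    refine exists_congr fun F => and_congr_right fun _ => forall₂_congr fun s hs => ?_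
    rw [hL s hs]
  tfae_have 1 → 3 := by
    rw [e1]
    intro h1 R hR
    have h13 := (h.out 0 2).1 h1
    obtain ⟨Z, n, M, T₀, h2, h3⟩ := h13 R hR
    exact ⟨Z, n, fun u hu => (h2 u hu).2, fun u hu => (h2 u hu).1, M, T₀, h3⟩
  tfae_have 3 → 2 := by
    intro h1 R hR
    obtain ⟨Z, n, h0, h2, M, T₀, h3⟩ := h1 R hR
    refine ⟨Z, n, fun k => T₀ + k, h0, h2, tendsto_atTop_add_const_left _ _
      tendsto_natCast_atTop_atTop, M, fun k s h4 h5 => ?_⟩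
    have h6 : T₀ + k ≥ T₀ := by
      have : (0 : ℝ) ≤ k := k.cast_nonneg
      linarith
    exact (Complex.re_le_norm _).trans (h3 _ h6 s h4 h5)
  tfae_have 2 → 1 := by
    rw [e1]
    intro h1
    refine (h.out 0 1).2 fun R hR => ?_
    obtain ⟨Z, n, T, h0, h2, h3, M, h4⟩ := h1 R hR
    exact ⟨Z, n, T, M, fun u hu => ⟨h2 u hu, h0 u hu⟩, h3, h4⟩
  tfae_finish

open scoped Classical in
theorem forms_divisor (H : Rep σ₀ g m) (hL : ∀ s : ℂ, σ₀ < s.re → L s = exp (g s)) :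
    ∀ F : ℂ → ℂ, MeromorphicOn F univ → (∀ s : ℂ, σ₀ < s.re → F s = L s) →
      ∀ R : ℝ, 0 < R → σ₀ < R → ∀ (Z : Finset ℂ) (n : ℂ → ℤ) (T : ℕ → ℝ), BoundedAbove m σ₀ R Z n T →
        ∀ s : ℂ, |s.re| < R → |s.im| < R →
          meromorphicOrderAt F s = ((∑ u ∈ Z with exp ((s - u) / (R + 1)) = 1, n u : ℤ) : WithTop ℤ) := by
  rintro F hF hFL R hR hRσ Z n T ⟨h1, h2, M, h3⟩ s hs1 hs2
  exact divisor H hF (fun s hs => (hFL s hs).trans (hL s hs)) hR hRσ h1 h2 h3 hs1 hs2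

theorem forms_region (H : Rep σ₀ g m) (hL : ∀ s : ℂ, σ₀ < s.re → L s = exp (g s)) {D : Set ℂ}
    (hD : IsOpen D) (hDr : ∀ s ∈ D, ∀ x : ℝ, 0 ≤ x → s + x ∈ D) :
    List.TFAE [
      ∃ G : ℂ → ℂ, DifferentiableOn ℂ G D ∧ (∀ s ∈ D, G s ≠ 0) ∧ ∀ s ∈ D, σ₀ < s.re → G s = L s,
      ∃ Φ : ℂ → ℂ, DifferentiableOn ℂ Φ D ∧ TendstoLocallyUniformlyOn m Φ atTop D ∧
        ∀ s ∈ D, σ₀ < s.re → exp (Φ s) = L s,
      ∃ T : ℕ → ℝ, Tendsto T atTop atTop ∧ ∀ s ∈ D, ∃ r > 0, ∃ M : ℝ, ∀ᶠ k : ℕ in atTop,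
        ∀ w ∈ Metric.ball s r, (m (T k) w).re ≤ M] := by
  have h := core H hD hDr
  have e1 : (∃ G : ℂ → ℂ, DifferentiableOn ℂ G D ∧ (∀ s ∈ D, G s ≠ 0) ∧
        ∀ s ∈ D, σ₀ < s.re → G s = L s) ↔
      ∃ G : ℂ → ℂ, DifferentiableOn ℂ G D ∧ (∀ s ∈ D, G s ≠ 0) ∧
        ∀ s ∈ D, σ₀ < s.re → G s = exp (g s) := by
    refine exists_congr fun F => and_congr_right fun _ => and_congr_right fun _ =>
      forall₃_congr fun s _ hs => ?_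
    rw [hL s hs]
  tfae_have 1 ↔ 3 := by
    rw [e1]
    exact h.out 0 2
  tfae_have 1 → 2 := by
    rw [e1]
    intro h1
    obtain ⟨Φ, h2, h3, h4⟩ := (h.out 0 1).1 h1
    exact ⟨Φ, h2, h3, fun s hs hs1 => by rw [h4 s hs hs1, hL s hs1]⟩
  tfae_have 2 → 1 := by
    rintro ⟨Φ, h2, -, h4⟩
    exact ⟨fun s => exp (Φ s), h2.cexp, fun s _ => exp_ne_zero _, h4⟩
  tfae_finish

end Pool.Agent.Q45.CT
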