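import Pool.Agent.Q45.CT.Mero

/-! Meromorphic continuation to the plane is equivalent to one-sided bounds for the corrected means. -/

set_option autoImplicit false

namespace Pool.Agent.Q45.CT

open Complex MeasureTheory Filter Topology Set
open Pool.Agent.W189.ML

variable {σ₀ : ℝ} {g : ℂ → ℂ} {m : ℝ → ℂ → ℂ}

theorem local_of_square (H : Rep σ₀ g m) {R : ℝ} (hR : σ₀ < R) {T : ℕ → ℝ} (hT : Tendsto T atTop atTop)
    {M : ℝ} (hM : ∀ᶠ k in atTop, ∀ s : ℂ, |s.re| ≤ R → |s.im| ≤ R → (m (T k) s).re ≤ M) :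
    ∀ s ∈ Q R, ∃ r > 0, ∃ M : ℝ, ∀ᶠ k in atTop, ∀ w ∈ Metric.ball s r, (m (T k) w).re ≤ M := by
  intro s hs
  by_cases h1 : s.re < R
  · have hO : IsOpen (Q R ∩ {s : ℂ | s.re < R}) :=
      (isOpen_Q R).inter (isOpen_lt Complex.continuous_re continuous_const)
    obtain ⟨r, hr, hsub⟩ := Metric.isOpen_iff.1 hO s ⟨hs, h1⟩
    refine ⟨r, hr, M, ?_⟩
    filter_upwards [hM] with k hk w hw
    obtain ⟨h2, h3⟩ := hsub hw
    have h3' : w.re < R := h3
    exact hk w (abs_le.2 ⟨h2.1.le, h3'.le⟩) h2.2.le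
  · push Not at h1
    set σ := (σ₀ + R) / 2 with hσ
    have h2 : σ₀ < σ := by rw [hσ]; linarith
    obtain ⟨B, hB⟩ := H.bdd σ h2
    refine ⟨s.re - σ, by rw [hσ]; linarith, B + 1, ?_⟩
    have h3 := hT.eventually (Metric.tendstoUniformlyOn_iff.1 (H.unif σ h2) 1 one_pos)
    filter_upwards [h3] with k hk w hw
    have h4 : σ ≤ w.re := by
      rw [Metric.mem_ball, dist_eq_norm] at hw
      have h5 := (Complex.abs_re_le_norm (w - s)).trans_lt hw
      rw [Complex.sub_re, abs_lt] at h5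
      linarith [h5.1]
    have h5 := hk w h4
    have h6 := hB w h4
    rw [dist_eq_norm] at h5
    have h7 := norm_sub_norm_le (m (T k) w) (g w)
    rw [norm_sub_rev] at h7
    have h8 := Complex.re_le_norm (m (T k) w)
    linarith

/-- one-sided bounds for the corrected means give a continuation to the half strip -/
theorem fwd_local (H : Rep σ₀ g m) {Z : Finset ℂ} {n : ℂ → ℤ} {h : ℝ} (hh : 0 < h)
    (hZ : ∀ u ∈ Z, u.re ≤ σ₀) {D : Set ℂ} (hD : IsOpen D)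
    (hDr : ∀ s ∈ D, ∀ x : ℝ, 0 ≤ x → s + x ∈ D) {T : ℕ → ℝ} (hT : Tendsto T atTop atTop)
    (hM : ∀ s ∈ D, ∃ r > 0, ∃ M : ℝ, ∀ᶠ k in atTop, ∀ w ∈ Metric.ball s r,
      (corrected m Z n h (T k) w).re ≤ M) :
    ∃ Φ : ℂ → ℂ, DifferentiableOn ℂ Φ D ∧
      ∀ s ∈ D, σ₀ < s.re → exp (Φ s) * fac Z n h s = exp (g s) := by
  have H' := H.corrected n hh hZ
  have hent : ∀ᶠ t : ℝ in atTop, Differentiable ℂ (corrected m Z n h t) := by
    filter_upwards [eventually_gt_atTop 0] with t ht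
    exact H'.ent t ht
  obtain ⟨Φ, h1, -, h3⟩ := propagate (p := atTop) (F := fun k => corrected m Z n h (T k))
    (g := fun s => g s + ∑ u ∈ Z, (n u : ℂ) * gser (lamc h) (cc h u) s) (σ₀ := σ₀)
    (hT.eventually hent) (fun σ hσ => fun u hu => hT.eventually (H'.unif σ hσ u hu)) H'.bdd hD
    hDr hM
  refine ⟨Φ, h1, fun s hs hs1 => ?_⟩
  rw [h3 s hs hs1, Complex.exp_add, mul_assoc, (exp_corr n hh hZ hs1).1, mul_one]

/-- gluing -/
theorem glue {N₀ : ℕ} {A : ℕ → ℂ → ℂ}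
    (hA : ∀ N ≥ N₀, MeromorphicNFOn (A N) (Q N) ∧ ∀ s ∈ Q N, σ₀ < s.re → A N s = exp (g s)) :
    ∃ F : ℂ → ℂ, (∀ s : ℂ, σ₀ < s.re → F s = exp (g s)) ∧ ∀ N ≥ N₀, EqOn F (A N) (Q N) := by
  have key : ∀ a b : ℕ, N₀ ≤ a → a ≤ b → EqOn (A a) (A b) (Q a) := by
    intro a b ha hab
    obtain ⟨h1, h2⟩ := hA a ha
    obtain ⟨h3, h4⟩ := hA b (ha.trans hab)
    have hsub : Q (a : ℝ) ⊆ Q (b : ℝ) := Q_mono (by exact_mod_cast hab)
    intro x hx
    by_cases ha0 : a = 0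
    · exfalso
      have h5 := hx.2
      rw [ha0, Nat.cast_zero] at h5
      exact absurd h5 (not_lt.2 (abs_nonneg _))
    have ha1 : (0 : ℝ) < a := by exact_mod_cast Nat.pos_of_ne_zero ha0
    have hm : MeromorphicOn (A a - A b) (Q a) := h1.meromorphicOn.sub (h3.meromorphicOn.mono_set hsub)
    set p : ℂ := ((|σ₀| + 1 : ℝ) : ℂ) with hp
    have hpre : p.re = |σ₀| + 1 := Complex.ofReal_re _
    have hpim : p.im = 0 := Complex.ofReal_im _
    have hpQ : p ∈ Q (a : ℝ) := by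
      refine ⟨?_, ?_⟩
      · rw [hpre]
        have := abs_nonneg σ₀
        linarith
      · rw [hpim, abs_zero]; exact ha1
    have hpσ : σ₀ < p.re := by
      rw [hpre]
      have := le_abs_self σ₀
      linarith
    have htop : meromorphicOrderAt (A a - A b) p = ⊤ := by
      rw [meromorphicOrderAt_eq_top_iff]
      have hO : IsOpen (Q (a : ℝ) ∩ {s : ℂ | σ₀ < s.re}) :=
        (isOpen_Q _).inter (isOpen_lt continuous_const Complex.continuous_re)
      have : ∀ᶠ z in 𝓝 p, (A a - A b) z = 0 := by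
        filter_upwards [hO.mem_nhds ⟨hpQ, hpσ⟩] with z hz
        rw [Pi.sub_apply, h2 z hz.1 hz.2, h4 z (hsub hz.1) hz.2, sub_self]
      exact this.filter_mono nhdsWithin_le_nhds
    have hxt : meromorphicOrderAt (A a - A b) x = ⊤ := by
      by_contra hne
      exact hm.meromorphicOrderAt_ne_top_of_isPreconnected (Q_conn _) hx hpQ hne htop
    rw [meromorphicOrderAt_eq_top_iff] at hxt
    have heq : A a =ᶠ[𝓝[≠] x] A b := by
      filter_upwards [hxt] with z hz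
      exact sub_eq_zero.1 hz
    exact (((h1 hx).eventuallyEq_nhdsNE_iff_eventuallyEq_nhds (h3 (hsub hx))).1 heq).self_of_nhds
  set ν : ℂ → ℕ := fun s => ⌈‖s‖⌉₊ + 1 + N₀ with hν
  have hνN : ∀ s, N₀ ≤ ν s := fun s => Nat.le_add_left _ _
  have hνQ : ∀ s, s ∈ Q (ν s : ℝ) := by
    intro s
    have h1 : ‖s‖ ≤ (⌈‖s‖⌉₊ : ℝ) := Nat.le_ceil _
    have h2 : (ν s : ℝ) = (⌈‖s‖⌉₊ : ℝ) + 1 + N₀ := by rw [hν]; push_cast; ring
    have h3 : (0 : ℝ) ≤ N₀ := N₀.cast_nonneg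
    refine ⟨?_, ?_⟩
    · have := (abs_le.1 (Complex.abs_re_le_norm s)).1
      linarith
    · have := Complex.abs_im_le_norm s
      linarith
  refine ⟨fun s => A (ν s) s, fun s hs => (hA _ (hνN s)).2 s (hνQ s) hs, fun N hN s hs => ?_⟩
  show A (ν s) s = A N s
  rcases le_total (ν s) N with h1 | h1
  · exact key _ _ (hνN s) h1 (hνQ s)
  · exact (key _ _ hN h1 hs).symm

theorem order_ne_top (hg : DifferentiableOn ℂ g {s | σ₀ < s.re}) {F : ℂ → ℂ}
    (hF : MeromorphicOn F univ) (hFg : ∀ s : ℂ, σ₀ < s.re → F s = exp (g s)) :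
    (∀ z : ℂ, meromorphicOrderAt F z ≠ ⊤) ∧ ∀ z : ℂ, σ₀ < z.re → AnalyticAt ℂ F z ∧
      meromorphicOrderAt F z = 0 := by
  have hO : IsOpen {s : ℂ | σ₀ < s.re} := isOpen_lt continuous_const Complex.continuous_re
  have h0 : ∀ z : ℂ, σ₀ < z.re → AnalyticAt ℂ F z ∧ meromorphicOrderAt F z = 0 := by
    intro z hz
    have h1 : AnalyticAt ℂ F z := by
      rw [Complex.analyticAt_iff_eventually_differentiableAt]
      filter_upwards [hO.mem_nhds hz] with w hw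
      have h2 : F =ᶠ[𝓝 w] fun v => exp (g v) := by
        filter_upwards [hO.mem_nhds hw] with v hv
        exact hFg v hv
      exact ((hg.differentiableAt (hO.mem_nhds hw)).cexp).congr_of_eventuallyEq h2
    refine ⟨h1, ?_⟩
    rw [h1.meromorphicNFAt.meromorphicOrderAt_eq_zero_iff, hFg z hz]
    exact exp_ne_zero _
  refine ⟨fun z => ?_, h0⟩
  have hp : σ₀ < (((σ₀ + 1 : ℝ)) : ℂ).re := by rw [Complex.ofReal_re]; linarith
  refine hF.meromorphicOrderAt_ne_top_of_isPreconnected isPreconnected_univ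
    (mem_univ ((σ₀ + 1 : ℝ) : ℂ)) (mem_univ z) ?_
  rw [(h0 _ hp).2]
  exact WithTop.zero_ne_top

open scoped Classical in
/-- a meromorphic continuation makes the corrected means bounded -/
theorem bwd_local (H : Rep σ₀ g m) {F : ℂ → ℂ} (hF : MeromorphicOn F univ)
    (hFg : ∀ s : ℂ, σ₀ < s.re → F s = exp (g s)) {R h : ℝ} (hR : 0 < R) (hh : 0 < h)
    (hhR : h * R ≤ Real.pi) :
    ∃ Z : Finset ℂ, (∀ u ∈ Z, u.re ≤ σ₀) ∧
      ∀ s ∈ Q R, ∃ r > 0, ∃ B T₀ : ℝ, ∀ T ≥ T₀, ∀ w ∈ Metric.ball s r,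
        ‖corrected m Z (fun u => (meromorphicOrderAt F u).untop₀) h T w‖ ≤ B := by
  obtain ⟨hne, h0⟩ := order_ne_top H.diff hF hFg
  set V : Set ℂ := Q R ∩ {s : ℂ | s.re ≤ σ₀} with hV
  have hVb : V ⊆ Metric.closedBall 0 (R + |σ₀| + R) := by
    rintro z ⟨⟨h1, h2⟩, h3⟩
    have h3' : z.re ≤ σ₀ := h3
    rw [Metric.mem_closedBall, dist_zero_right]
    have h4 := Complex.norm_le_abs_re_add_abs_im z
    have h5 : |z.re| ≤ R + |σ₀| := by
      rw [abs_le]
      have := le_abs_self σ₀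
      have := abs_nonneg σ₀
      constructor <;> linarith
    linarith
  have hfin : (MeromorphicOn.divisor F V).support.Finite :=
    MeromorphicOn.divisor_support_finite_of_subset (U := Metric.closedBall 0 (R + |σ₀| + R))
      (hF.mono_set (subset_univ _)) (isCompact_closedBall _ _) hVb
  set Z : Finset ℂ := hfin.toFinset with hZ
  have hZV : ∀ u ∈ Z, u ∈ V := fun u hu =>
    (MeromorphicOn.divisor F V).supportWithinDomain (hfin.mem_toFinset.1 hu)
  set n : ℂ → ℤ := fun u => (meromorphicOrderAt F u).untop₀ with hn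
  have hord : ∀ z : ℂ, meromorphicOrderAt F z = (n z : WithTop ℤ) := fun z =>
    (WithTop.coe_untop₀_of_ne_top (hne z)).symm
  have hn0 : ∀ z ∈ Q R, z ∉ Z → n z = 0 := by
    intro z hz hzZ
    by_cases h1 : σ₀ < z.re
    · show (meromorphicOrderAt F z).untop₀ = 0
      rw [(h0 z h1).2]; simp
    · push Not at h1
      have hzV : z ∈ V := ⟨hz, h1⟩
      have h2 : MeromorphicOn.divisor F V z = 0 := by
        by_contra h3
        exact hzZ (hfin.mem_toFinset.2 h3)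
      rwa [MeromorphicOn.divisor_apply (hF.mono_set (subset_univ _)) hzV] at h2
  have hZre : ∀ u ∈ Z, u.re ≤ σ₀ := fun u hu => (hZV u hu).2
  set P : ℂ → ℂ := fun s => F s * fac Z (fun u => -n u) h s with hP
  have hPm : MeromorphicOn P (Q R) := fun z _ =>
    (hF z (mem_univ z)).mul (fac_mero Z _ h z)
  have hPo : ∀ z ∈ Q R, meromorphicOrderAt P z = 0 := by
    intro z hz
    have h1 : meromorphicOrderAt P z = meromorphicOrderAt F z +
        meromorphicOrderAt (fac Z (fun u => -n u) h) z :=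
      meromorphicOrderAt_mul (hF z (mem_univ z)) (fac_mero Z _ h z)
    have h2 : meromorphicOrderAt (fac Z (fun u => -n u) h) z =
        ∑ u ∈ Z, meromorphicOrderAt (fun s => cf h u s ^ (-n u)) z :=
      meromorphicOrderAt_fun_prod fun u _ => ((cf_an h u z).meromorphicAt).zpow (-n u)
    have h3 : ∀ u ∈ Z, meromorphicOrderAt (fun s => cf h u s ^ (-n u)) z =
        ((if u = z then -n z else 0 : ℤ) : WithTop ℤ) := by
      intro u hu
      have h4 : meromorphicOrderAt (fun s => cf h u s ^ (-n u)) z =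
          ((-n u : ℤ) : WithTop ℤ) * meromorphicOrderAt (cf h u) z :=
        meromorphicOrderAt_zpow (f := cf h u) (cf_an h u z).meromorphicAt
      rw [h4]
      by_cases huz : u = z
      · subst huz
        rw [cf_order_self hh, if_pos rfl, ← WithTop.coe_mul, mul_one]
      · rw [if_neg huz, cf_order_ne, mul_zero, WithTop.coe_zero]
        refine cf_ne hh (fun h5 => huz h5.symm) ?_
        have h5 := (hZV u hu).1.2
        have h6 := hz.2
        have h7 : |z.im - u.im| < 2 * R := by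
          have := abs_sub z.im u.im
          linarith
        have h8 : h * |z.im - u.im| < h * (2 * R) := mul_lt_mul_of_pos_left h7 hh
        linarith
    rw [h1, h2, Finset.sum_congr rfl h3, ← WithTop.coe_sum, Finset.sum_ite_eq' Z z, hord z]
    by_cases hzZ : z ∈ Z
    · rw [if_pos hzZ, ← WithTop.coe_add]
      simp
    · rw [if_neg hzZ, hn0 z hz hzZ]
      simp
  set G : ℂ → ℂ := toMeromorphicNFOn P (Q R) with hG
  have hGNF : MeromorphicNFOn G (Q R) := meromorphicNFOn_toMeromorphicNFOn _ _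
  have hGo : ∀ z ∈ Q R, meromorphicOrderAt G z = 0 := by
    intro z hz
    rw [hG, meromorphicOrderAt_toMeromorphicNFOn hPm hz, hPo z hz]
  have hGa : ∀ z ∈ Q R, AnalyticAt ℂ G z := fun z hz =>
    ((hGNF hz).meromorphicOrderAt_nonneg_iff_analyticAt).1 (hGo z hz).ge
  have hG0 : ∀ z ∈ Q R, G z ≠ 0 := fun z hz =>
    ((hGNF hz).meromorphicOrderAt_eq_zero_iff).1 (hGo z hz)
  have hfacinv : ∀ s, fac Z (fun u => -n u) h s = (fac Z n h s)⁻¹ := by
    intro s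
    unfold fac
    rw [← Finset.prod_inv_distrib]
    exact Finset.prod_congr rfl fun u _ => zpow_neg _ _
  have hGe : ∀ s ∈ Q R, σ₀ < s.re → G s =
      exp (g s + ∑ u ∈ Z, (n u : ℂ) * gser (lamc h) (cc h u) s) := by
    intro s hs hs1
    obtain ⟨h1, h2⟩ := exp_corr n hh hZre hs1
    have hPa : AnalyticAt ℂ P s := by
      refine (h0 s hs1).1.mul ?_
      rw [Complex.analyticAt_iff_eventually_differentiableAt]
      have hO : IsOpen {s : ℂ | σ₀ < s.re} := isOpen_lt continuous_const Complex.continuous_re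
      filter_upwards [hO.mem_nhds hs1] with w hw
      unfold fac
      refine DifferentiableAt.fun_finsetProd fun u hu => ?_
      exact ((cf_diff h u) w).zpow (Or.inl (exp_gser hh ((hZre u hu).trans_lt hw)).2)
    have h3 : G s = P s := by
      rw [hG, toMeromorphicNFOn_eq_toMeromorphicNFAt hPm hs,
        toMeromorphicNFAt_eq_self.2 hPa.meromorphicNFAt]
    rw [h3, hP]
    show F s * fac Z (fun u => -n u) h s = _
    rw [hfacinv, hFg s hs1, Complex.exp_add]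
    congr 1
    exact (eq_inv_of_mul_eq_one_left h1).symm
  refine ⟨Z, hZre, ?_⟩
  exact back (H.corrected n hh hZre) (isOpen_Q R) Q_right
    (fun z hz => (hGa z hz).differentiableAt.differentiableWithinAt) hG0 hGe

theorem abs_le_of_square {R : ℝ} : {s : ℂ | |s.re| ≤ R ∧ |s.im| ≤ R} = Icc (-R) R ×ℂ Icc (-R) R := by
  ext s
  simp only [mem_ofPred_eq, abs_le, mem_reProdIm, mem_Icc]

/-- bounds near the points of a compact set give a bound on the set -/
theorem compact_bound {E : ℝ → ℂ → ℂ} {K D : Set ℂ} (hK : IsCompact K) (hKD : K ⊆ D)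
    (h : ∀ s ∈ D, ∃ r > 0, ∃ B T₀ : ℝ, ∀ T ≥ T₀, ∀ w ∈ Metric.ball s r, ‖E T w‖ ≤ B) :
    ∃ B T₀ : ℝ, ∀ T ≥ T₀, ∀ w ∈ K, ‖E T w‖ ≤ B := by
  choose! r hr B T₀ hB using h
  obtain ⟨t, ht, hcov⟩ := hK.elim_nhds_subcover (fun s => Metric.ball s (r s))
    fun s hs => Metric.ball_mem_nhds s (hr s (hKD hs))
  refine ⟨∑ s ∈ t, |B s|, ∑ s ∈ t, |T₀ s|, fun T hT w hw => ?_⟩
  obtain ⟨s, hs, hws⟩ := mem_iUnion₂.1 (hcov hw)
  have h1 : |T₀ s| ≤ ∑ s ∈ t, |T₀ s| := Finset.single_le_sum (f := fun s => |T₀ s|)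
    (fun i _ => abs_nonneg _) hs
  have h2 : |B s| ≤ ∑ s ∈ t, |B s| := Finset.single_le_sum (f := fun s => |B s|)
    (fun i _ => abs_nonneg _) hs
  have h3 := hB s (hKD (ht s hs)) T (by have := le_abs_self (T₀ s); linarith) w hws
  have := le_abs_self (B s)
  linarith

/-- **Meromorphic continuation to the plane.** -/
theorem plane (H : Rep σ₀ g m) :
    List.TFAE [
      ∃ F : ℂ → ℂ, MeromorphicOn F univ ∧ ∀ s : ℂ, σ₀ < s.re → F s = exp (g s),
      ∀ R : ℝ, 0 < R → ∃ (Z : Finset ℂ) (n : ℂ → ℤ) (T : ℕ → ℝ) (M : ℝ), (∀ u ∈ Z, u.re ≤ σ₀) ∧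
        Tendsto T atTop atTop ∧ ∀ k : ℕ, ∀ s : ℂ, |s.re| ≤ R → |s.im| ≤ R →
          (corrected m Z n (1 / (R + 1)) (T k) s).re ≤ M,
      ∀ R : ℝ, 0 < R → ∃ (Z : Finset ℂ) (n : ℂ → ℤ) (M T₀ : ℝ), (∀ u ∈ Z, u.re ≤ σ₀) ∧
        ∀ T ≥ T₀, ∀ s : ℂ, |s.re| ≤ R → |s.im| ≤ R →
          ‖corrected m Z n (1 / (R + 1)) T s‖ ≤ M] ∧
    List.TFAE [
      ∃ F : ℂ → ℂ, Differentiable ℂ F ∧ ∀ s : ℂ, σ₀ < s.re → F s = exp (g s),
      ∀ R : ℝ, 0 < R → ∃ (Z : Finset ℂ) (n : ℂ → ℤ) (T : ℕ → ℝ) (M : ℝ),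
        (∀ u ∈ Z, u.re ≤ σ₀ ∧ 0 ≤ n u) ∧
        Tendsto T atTop atTop ∧ ∀ k : ℕ, ∀ s : ℂ, |s.re| ≤ R → |s.im| ≤ R →
          (corrected m Z n (1 / (R + 1)) (T k) s).re ≤ M,
      ∀ R : ℝ, 0 < R → ∃ (Z : Finset ℂ) (n : ℂ → ℤ) (M T₀ : ℝ), (∀ u ∈ Z, u.re ≤ σ₀ ∧ 0 ≤ n u) ∧
        ∀ T ≥ T₀, ∀ s : ℂ, |s.re| ≤ R → |s.im| ≤ R →
          ‖corrected m Z n (1 / (R + 1)) T s‖ ≤ M] := by
  have main13 : ∀ F : ℂ → ℂ, MeromorphicOn F univ → (∀ s : ℂ, σ₀ < s.re → F s = exp (g s)) →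
      ∀ R : ℝ, 0 < R → ∃ (Z : Finset ℂ) (M T₀ : ℝ), (∀ u ∈ Z, u.re ≤ σ₀) ∧
        ∀ T ≥ T₀, ∀ s : ℂ, |s.re| ≤ R → |s.im| ≤ R →
          ‖corrected m Z (fun u => (meromorphicOrderAt F u).untop₀) (1 / (R + 1)) T s‖ ≤ M := by
    intro F hF hFg R hR
    have hR1 : 0 < R + 1 := by linarith
    obtain ⟨Z, hZ, hb⟩ := bwd_local H hF hFg (R := R + 1) (h := 1 / (R + 1)) hR1 (by positivity) (by
      rw [one_div, inv_mul_cancel₀ hR1.ne']
      have := Real.pi_gt_three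
      linarith)
    have hK : IsCompact {s : ℂ | |s.re| ≤ R ∧ |s.im| ≤ R} := by
      rw [abs_le_of_square]
      exact isCompact_Icc.reProdIm isCompact_Icc
    obtain ⟨M, T₀, hM⟩ := compact_bound hK (D := Q (R + 1)) (by
      rintro s ⟨h1, h2⟩
      rw [abs_le] at h1
      exact ⟨by linarith [h1.1], by linarith⟩) hb
    exact ⟨Z, M, T₀, hZ, fun T hT s h1 h2 => hM T hT s ⟨h1, h2⟩⟩
  -- the local continuations
  have main2 : ∀ P : (ℂ → ℤ) → Finset ℂ → Prop,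
      (∀ R : ℝ, 0 < R → ∃ (Z : Finset ℂ) (n : ℂ → ℤ) (T : ℕ → ℝ) (M : ℝ), ((∀ u ∈ Z, u.re ≤ σ₀) ∧
        P n Z) ∧ Tendsto T atTop atTop ∧ ∀ k : ℕ, ∀ s : ℂ, |s.re| ≤ R → |s.im| ≤ R →
          (corrected m Z n (1 / (R + 1)) (T k) s).re ≤ M) →
      ∀ R : ℝ, 0 < R → σ₀ < R → ∃ (Z : Finset ℂ) (n : ℂ → ℤ) (Φ : ℂ → ℂ), P n Z ∧
        DifferentiableOn ℂ Φ (Q R) ∧
        ∀ s ∈ Q R, σ₀ < s.re → exp (Φ s) * fac Z n (1 / (R + 1)) s = exp (g s) := by
    intro P hyp R hR hRσ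
    obtain ⟨Z, n, T, M, ⟨hZ, hP⟩, hT, hM⟩ := hyp R hR
    have hh : 0 < 1 / (R + 1) := by positivity
    obtain ⟨Φ, h1, h2⟩ := fwd_local H hh hZ (isOpen_Q R) Q_right hT
      (local_of_square (H.corrected n hh hZ) hRσ hT (Eventually.of_forall hM))
    exact ⟨Z, n, Φ, hP, h1, h2⟩
  have hO : IsOpen {s : ℂ | σ₀ < s.re} := isOpen_lt continuous_const Complex.continuous_re
  set N₀ : ℕ := ⌈|σ₀|⌉₊ + 1 with hN₀
  have hN₀' : ∀ N ≥ N₀, (0 : ℝ) < N ∧ σ₀ < N := by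
    intro N hN
    have h1 : ((⌈|σ₀|⌉₊ + 1 : ℕ) : ℝ) ≤ N := by exact_mod_cast hN
    push_cast at h1
    have h2 : |σ₀| ≤ (⌈|σ₀|⌉₊ : ℝ) := Nat.le_ceil _
    have h3 := le_abs_self σ₀
    have h4 := abs_nonneg σ₀
    constructor <;> linarith
  constructor
  · tfae_have 1 → 3 := by
      rintro ⟨F, hF, hFg⟩ R hR
      obtain ⟨Z, M, T₀, h1, h2⟩ := main13 F hF hFg R hR
      exact ⟨Z, _, M, T₀, h1, h2⟩
    tfae_have 3 → 2 := by
      intro h R hR
      obtain ⟨Z, n, M, T₀, h1, h2⟩ := h R hR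
      refine ⟨Z, n, fun k => T₀ + k, M, h1, tendsto_atTop_add_const_left _ _
        tendsto_natCast_atTop_atTop, fun k s h3 h4 => ?_⟩
      have h5 : T₀ + k ≥ T₀ := by
        have : (0 : ℝ) ≤ k := k.cast_nonneg
        linarith
      exact (Complex.re_le_norm _).trans (h2 _ h5 s h3 h4)
    tfae_have 2 → 1 := by
      intro h
      have h' := main2 (fun _ _ => True) (by simpa using h)
      have hA : ∀ N : ℕ, N₀ ≤ N → ∃ A : ℂ → ℂ, MeromorphicNFOn A (Q N) ∧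
          ∀ s ∈ Q (N : ℝ), σ₀ < s.re → A s = exp (g s) := by
        intro N hN
        obtain ⟨Z, n, Φ, -, h1, h2⟩ := h' N (hN₀' N hN).1 (hN₀' N hN).2
        set B : ℂ → ℂ := fun s => exp (Φ s) * fac Z n (1 / ((N : ℝ) + 1)) s with hB
        have hBm : MeromorphicOn B (Q N) := by
          intro z hz
          refine MeromorphicAt.mul ?_ (fac_mero Z n _ z)
          exact ((h1.analyticOnNhd (isOpen_Q _) z hz).cexp).meromorphicAt
        refine ⟨toMeromorphicNFOn B (Q N), meromorphicNFOn_toMeromorphicNFOn _ _, fun s hs hs1 => ?_⟩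
        have hBa : AnalyticAt ℂ B s := by
          rw [Complex.analyticAt_iff_eventually_differentiableAt]
          have hO2 : IsOpen (Q (N : ℝ) ∩ {s : ℂ | σ₀ < s.re}) := (isOpen_Q _).inter hO
          filter_upwards [hO2.mem_nhds ⟨hs, hs1⟩] with w hw
          have h3 : B =ᶠ[𝓝 w] fun v => exp (g v) := by
            filter_upwards [hO2.mem_nhds hw] with v hv
            exact h2 v hv.1 hv.2
          exact ((H.diff.differentiableAt (hO.mem_nhds hw.2)).cexp).congr_of_eventuallyEq h3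
        rw [toMeromorphicNFOn_eq_toMeromorphicNFAt hBm hs,
          toMeromorphicNFAt_eq_self.2 hBa.meromorphicNFAt]
        exact h2 s hs hs1
      choose! A hA1 hA2 using hA
      obtain ⟨F, hF1, hF2⟩ := glue (N₀ := N₀) (A := A) fun N hN => ⟨hA1 N hN, hA2 N hN⟩
      refine ⟨F, fun z _ => ?_, hF1⟩
      set N : ℕ := ⌈‖z‖⌉₊ + 1 + N₀ with hN
      have hNN : N₀ ≤ N := Nat.le_add_left _ _
      have hzQ : z ∈ Q (N : ℝ) := by
        have h1 : ‖z‖ ≤ (⌈‖z‖⌉₊ : ℝ) := Nat.le_ceil _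
        have h2 : (N : ℝ) = (⌈‖z‖⌉₊ : ℝ) + 1 + N₀ := by rw [hN]; push_cast; ring
        have h3 : (0 : ℝ) ≤ N₀ := N₀.cast_nonneg
        refine ⟨?_, ?_⟩
        · have := (abs_le.1 (Complex.abs_re_le_norm z)).1
          linarith
        · have := Complex.abs_im_le_norm z
          linarith
      have h1 : A N =ᶠ[𝓝 z] F := by
        filter_upwards [(isOpen_Q (N : ℝ)).mem_nhds hzQ] with w hw
        exact (hF2 N hNN hw).symm
      exact ((hA1 N hNN) hzQ).meromorphicAt.congr (h1.filter_mono nhdsWithin_le_nhds)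
    tfae_finish
  · tfae_have 1 → 3 := by
      rintro ⟨F, hF, hFg⟩ R hR
      have hFa : ∀ z, AnalyticAt ℂ F z := fun z => hF.analyticAt z
      obtain ⟨Z, M, T₀, h1, h2⟩ := main13 F (fun z _ => (hFa z).meromorphicAt) hFg R hR
      refine ⟨Z, _, M, T₀, fun u hu => ⟨h1 u hu, ?_⟩, h2⟩
      have h3 := (hFa u).meromorphicOrderAt_nonneg
      have h4 := (order_ne_top H.diff (fun z _ => (hFa z).meromorphicAt) hFg).1 u
      rw [← WithTop.coe_untop₀_of_ne_top h4] at h3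
      exact_mod_cast h3
    tfae_have 3 → 2 := by
      intro h R hR
      obtain ⟨Z, n, M, T₀, h1, h2⟩ := h R hR
      refine ⟨Z, n, fun k => T₀ + k, M, h1, tendsto_atTop_add_const_left _ _
        tendsto_natCast_atTop_atTop, fun k s h3 h4 => ?_⟩
      have h5 : T₀ + k ≥ T₀ := by
        have : (0 : ℝ) ≤ k := k.cast_nonneg
        linarith
      exact (Complex.re_le_norm _).trans (h2 _ h5 s h3 h4)
    tfae_have 2 → 1 := by
      intro h
      have h' := main2 (fun n Z => ∀ u ∈ Z, 0 ≤ n u) (by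
        intro R hR
        obtain ⟨Z, n, T, M, h1, h2, h3⟩ := h R hR
        exact ⟨Z, n, T, M, ⟨fun u hu => (h1 u hu).1, fun u hu => (h1 u hu).2⟩, h2, h3⟩)
      have hA : ∀ N : ℕ, N₀ ≤ N → ∃ A : ℂ → ℂ, DifferentiableOn ℂ A (Q N) ∧
          ∀ s ∈ Q (N : ℝ), σ₀ < s.re → A s = exp (g s) := by
        intro N hN
        obtain ⟨Z, n, Φ, hn, h1, h2⟩ := h' N (hN₀' N hN).1 (hN₀' N hN).2
        exact ⟨fun s => exp (Φ s) * fac Z n (1 / ((N : ℝ) + 1)) s,
          h1.cexp.mul (fac_diff Z hn _).differentiableOn, h2⟩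
      choose! A hA1 hA2 using hA
      obtain ⟨F, hF1, hF2⟩ := glue (N₀ := N₀) (A := A) fun N hN =>
        ⟨((hA1 N hN).analyticOnNhd (isOpen_Q _)).meromorphicNFOn, hA2 N hN⟩
      refine ⟨F, fun z => ?_, hF1⟩
      set N : ℕ := ⌈‖z‖⌉₊ + 1 + N₀ with hN
      have hNN : N₀ ≤ N := Nat.le_add_left _ _
      have hzQ : z ∈ Q (N : ℝ) := by
        have h1 : ‖z‖ ≤ (⌈‖z‖⌉₊ : ℝ) := Nat.le_ceil _
        have h2 : (N : ℝ) = (⌈‖z‖⌉₊ : ℝ) + 1 + N₀ := by rw [hN]; push_cast; ring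
        have h3 : (0 : ℝ) ≤ N₀ := N₀.cast_nonneg
        refine ⟨?_, ?_⟩
        · have := (abs_le.1 (Complex.abs_re_le_norm z)).1
          linarith
        · have := Complex.abs_im_le_norm z
          linarith
      have h1 : F =ᶠ[𝓝 z] A N := by
        filter_upwards [(isOpen_Q (N : ℝ)).mem_nhds hzQ] with w hw
        exact hF2 N hNN hw
      exact ((hA1 N hNN).differentiableAt ((isOpen_Q _).mem_nhds hzQ)).congr_of_eventuallyEq h1
    tfae_finish

end Pool.Agent.Q45.CT
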