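import Pool.Agent.Q45.CT.Back

/-! Meromorphic continuation: corrections for the zeros and poles, gluing. -/

set_option autoImplicit false

namespace Pool.Agent.Q45.CT

open Complex MeasureTheory Filter Topology Set
open Pool.Agent.W189.ML

/-- `∑_{k ≥ 1} e^{-k h z} / (k Γ(1 + k h / T))` -/
noncomputable def corr (h T : ℝ) (z : ℂ) : ℂ :=
  ∑' k : ℕ, exp (-(((k : ℂ) + 1) * h * z)) / (((k : ℂ) + 1) * (Real.Gamma (1 + ((k : ℝ) + 1) * h / T) : ℂ))

/-- frequencies of the correction -/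
noncomputable def lamc (h : ℝ) (k : ℕ) : ℝ := ((k : ℝ) + 1) * h

/-- coefficients of the correction -/
noncomputable def cc (h : ℝ) (u : ℂ) (k : ℕ) : ℂ := exp (((k : ℂ) + 1) * h * u) / ((k : ℂ) + 1)

theorem gmean_corr (h : ℝ) (u : ℂ) (T : ℝ) (s : ℂ) : gmean (lamc h) (cc h u) T s = corr h T (s - u) := by
  unfold gmean corr
  refine tsum_congr fun k => ?_
  unfold lamc cc om
  push_cast
  have h1 : exp (-((k + 1) * h * (s - u))) = exp ((k + 1) * h * u) * exp (-(s * ((k + 1) * h))) := by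
    rw [← Complex.exp_add]
    congr 1
    ring
  rw [h1, div_mul_eq_div_div]
  simp only [div_eq_mul_inv]
  ring

theorem cc_term {h : ℝ} {u : ℂ} {σ : ℝ} (k : ℕ) : ‖cc h u k‖ * Real.exp (-(σ * lamc h k)) ≤
    Real.exp (-(h * (σ - u.re))) ^ (k + 1) := by
  unfold cc lamc
  rw [norm_div, Complex.norm_exp]
  have h1 : (((k : ℂ) + 1) * h * u).re = ((k : ℝ) + 1) * h * u.re := by
    have : ((k : ℂ) + 1) * h = ((((k : ℝ) + 1) * h : ℝ) : ℂ) := by push_cast; rfl
    rw [this, Complex.re_ofReal_mul]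
  have h2 : ‖(k : ℂ) + 1‖ = (k : ℝ) + 1 := by
    have : (k : ℂ) + 1 = (((k : ℝ) + 1 : ℝ) : ℂ) := by push_cast; rfl
    rw [this, Complex.norm_real, Real.norm_eq_abs, abs_of_pos (by positivity)]
  rw [h1, h2, ← Real.exp_nat_mul, div_mul_eq_mul_div, ← Real.exp_add]
  have h3 : ((k : ℝ) + 1) * h * u.re + -(σ * (((k : ℝ) + 1) * h)) =
      ((k + 1 : ℕ) : ℝ) * -(h * (σ - u.re)) := by push_cast; ring
  rw [h3]
  refine div_le_self (Real.exp_pos _).le ?_
  have : (0 : ℝ) ≤ k := k.cast_nonneg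
  linarith

theorem DS_corr {h : ℝ} (hh : 0 < h) (u : ℂ) : DS (lamc h) (cc h u) u.re where
  pos k := by unfold lamc; positivity
  sum σ hσ := by
    have h1 : Real.exp (-(h * (σ - u.re))) < 1 := by
      rw [Real.exp_lt_one_iff]
      have : 0 < h * (σ - u.re) := mul_pos hh (by linarith)
      linarith
    have h2 := (summable_geometric_of_lt_one (Real.exp_pos _).le h1).mul_right
      (Real.exp (-(h * (σ - u.re))))
    refine Summable.of_nonneg_of_le (fun k => by positivity) (fun k => cc_term k) ?_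
    simpa only [pow_succ] using h2

/-- the factor `1 - e^{-h (s - u)}` -/
noncomputable def cf (h : ℝ) (u s : ℂ) : ℂ := 1 - exp (-(h * (s - u)))

theorem exp_gser {h : ℝ} (hh : 0 < h) {u s : ℂ} (hs : u.re < s.re) :
    exp (gser (lamc h) (cc h u) s) = (cf h u s)⁻¹ ∧ cf h u s ≠ 0 := by
  set q : ℂ := exp (-(h * (s - u))) with hq
  have h1 : ‖q‖ < 1 := by
    rw [hq, Complex.norm_exp]
    rw [Real.exp_lt_one_iff]
    rw [Complex.neg_re, Complex.re_ofReal_mul, Complex.sub_re]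
    have : 0 < h * (s.re - u.re) := mul_pos hh (by linarith)
    linarith
  have h2 := Complex.hasSum_taylorSeries_neg_log h1
  have h3 := (hasSum_nat_add_iff' 1).2 h2
  have h4 : gser (lamc h) (cc h u) s = -Complex.log (1 - q) := by
    have h5 : (fun n : ℕ => q ^ (n + 1) / ((n + 1 : ℕ) : ℂ)) =
        fun i => cc h u i * exp (-(s * lamc h i)) := by
      funext k
      rw [hq, ← Complex.exp_nat_mul]
      unfold cc lamc
      rw [div_mul_eq_mul_div, ← Complex.exp_add]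
      push_cast
      congr 2
      ring
    rw [h5] at h3
    have h6 := h3.tsum_eq
    unfold gser
    rw [h6]
    simp
  have h5 : 1 - q ≠ 0 := by
    intro h6
    have : q = 1 := (sub_eq_zero.1 h6).symm
    rw [this] at h1
    simp at h1
  refine ⟨?_, h5⟩
  rw [h4, Complex.exp_neg, Complex.exp_log h5]
  rfl

theorem cf_diff (h : ℝ) (u : ℂ) : Differentiable ℂ (cf h u) := by
  unfold cf
  fun_prop

theorem cf_an (h : ℝ) (u z : ℂ) : AnalyticAt ℂ (cf h u) z := (cf_diff h u).analyticAt z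

theorem cf_order_ne {h : ℝ} {u z : ℂ} (hz : cf h u z ≠ 0) : meromorphicOrderAt (cf h u) z = 0 :=
  ((cf_an h u z).meromorphicNFAt.meromorphicOrderAt_eq_zero_iff).2 hz

theorem cf_order_self {h : ℝ} (hh : 0 < h) (u : ℂ) : meromorphicOrderAt (cf h u) u = (1 : ℤ) := by
  rw [meromorphicOrderAt_eq_int_iff (cf_an h u u).meromorphicAt]
  refine ⟨dslope (cf h u) u, ?_, ?_, ?_⟩
  · have h1 : Differentiable ℂ (dslope (cf h u) u) := by
      intro z
      have := (Complex.differentiableOn_dslope (s := univ) (c := u) (f := cf h u) univ_mem).2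
        (cf_diff h u).differentiableOn
      exact this.differentiableAt univ_mem
    exact h1.analyticAt u
  · rw [dslope_same]
    have h1 : HasDerivAt (cf h u) (-(exp (-(h * (u - u))) * (-(h * 1)))) u := by
      have h2 : HasDerivAt (fun s : ℂ => -((h : ℂ) * (s - u))) (-(h * 1)) u :=
        (((hasDerivAt_id u).sub_const u).const_mul (h : ℂ)).neg
      exact (h2.cexp).const_sub 1
    rw [h1.deriv]
    simp [hh.ne']
  · refine Eventually.of_forall fun z => ?_
    have h1 := sub_smul_dslope (cf h u) u z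
    have h2 : cf h u u = 0 := by unfold cf; simp
    rw [h2, sub_zero] at h1
    rw [← h1]
    simp

theorem cf_ne {h : ℝ} (hh : 0 < h) {u z : ℂ} (hz : z ≠ u) (him : h * |z.im - u.im| < 2 * Real.pi) :
    cf h u z ≠ 0 := by
  intro h0
  have h1 : exp (-(h * (z - u))) = 1 := (sub_eq_zero.1 h0).symm
  obtain ⟨n, hn⟩ := Complex.exp_eq_one_iff.1 h1
  have h2 := congrArg Complex.im hn
  have h3 := congrArg Complex.re hn
  have e1 : (-(h * (z - u)) : ℂ).im = -(h * (z.im - u.im)) := by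
    rw [Complex.neg_im, Complex.im_ofReal_mul, Complex.sub_im]
  have e2 : (-(h * (z - u)) : ℂ).re = -(h * (z.re - u.re)) := by
    rw [Complex.neg_re, Complex.re_ofReal_mul, Complex.sub_re]
  have e3 : ((n : ℂ) * (2 * Real.pi * I)).im = n * (2 * Real.pi) := by simp
  have e4 : ((n : ℂ) * (2 * Real.pi * I)).re = 0 := by simp
  rw [e1, e3] at h2
  rw [e2, e4] at h3
  have hn0 : n = 0 := by
    by_contra hne
    have h4 : (1 : ℝ) ≤ |(n : ℝ)| := by
      have := Int.one_le_abs hne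
      exact_mod_cast this
    have h5 : |(n : ℝ)| * (2 * Real.pi) < 2 * Real.pi := by
      have h6 : |(n : ℝ) * (2 * Real.pi)| = h * |z.im - u.im| := by
        rw [← h2, abs_neg, abs_mul, abs_of_pos hh]
      rw [abs_mul, abs_of_pos (by positivity : (0 : ℝ) < 2 * Real.pi)] at h6
      rw [h6]; exact him
    nlinarith [Real.pi_pos]
  rw [hn0] at h2
  apply hz
  apply Complex.ext
  · have : h * (z.re - u.re) = 0 := by linarith
    rcases mul_eq_zero.1 this with h7 | h7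
    · exact absurd h7 hh.ne'
    · linarith
  · have : h * (z.im - u.im) = 0 := by simpa using h2
    rcases mul_eq_zero.1 this with h7 | h7
    · exact absurd h7 hh.ne'
    · linarith

/-- the half strips -/
def Q (R : ℝ) : Set ℂ := {s | -R < s.re ∧ |s.im| < R}

theorem isOpen_Q (R : ℝ) : IsOpen (Q R) :=
  (isOpen_lt continuous_const Complex.continuous_re).inter
    (isOpen_lt Complex.continuous_im.abs continuous_const)

theorem Q_right {R : ℝ} : ∀ s ∈ Q R, ∀ x : ℝ, 0 ≤ x → s + x ∈ Q R := by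
  rintro s ⟨h1, h2⟩ x hx
  refine ⟨?_, ?_⟩
  · rw [Complex.add_re, Complex.ofReal_re]; linarith
  · rw [Complex.add_im, Complex.ofReal_im, add_zero]; exact h2

theorem Q_mono {a b : ℝ} (h : a ≤ b) : Q a ⊆ Q b := fun s hs =>
  ⟨by have := hs.1; linarith, by have := hs.2; linarith⟩

theorem Q_conn (R : ℝ) : IsPreconnected (Q R) := by
  have h1 : Q R = {s : ℂ | -R < s.re} ∩ ({s : ℂ | -R < s.im} ∩ {s : ℂ | s.im < R}) := by
    ext s
    simp only [Q, mem_ofPred_eq, mem_inter_iff, abs_lt]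
  rw [h1]
  exact ((convex_halfSpace_re_gt (-R)).inter
    ((convex_halfSpace_im_gt (-R)).inter (convex_halfSpace_im_lt R))).isPreconnected

/-- the corrected means -/
noncomputable def corrected (m : ℝ → ℂ → ℂ) (Z : Finset ℂ) (n : ℂ → ℤ) (h T : ℝ) (s : ℂ) : ℂ :=
  m T s + ∑ u ∈ Z, (n u : ℂ) * corr h T (s - u)

theorem Rep.corrected {σ₀ : ℝ} {g : ℂ → ℂ} {m : ℝ → ℂ → ℂ} (H : Rep σ₀ g m) {Z : Finset ℂ}
    (n : ℂ → ℤ) {h : ℝ} (hh : 0 < h) (hZ : ∀ u ∈ Z, u.re ≤ σ₀) :
    Rep σ₀ (fun s => g s + ∑ u ∈ Z, (n u : ℂ) * gser (lamc h) (cc h u) s)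
      (fun T s => corrected m Z n h T s) := by
  have h1 := H.add (Rep.sum Z fun u hu =>
    (((DS_corr hh u).toRep.mono (hZ u hu)).smul (n u : ℂ)))
  have e : (fun (T : ℝ) (s : ℂ) => m T s + ∑ u ∈ Z, (n u : ℂ) * gmean (lamc h) (cc h u) T s) =
      fun T s => CT.corrected m Z n h T s := by
    funext T s
    unfold CT.corrected
    simp only [gmean_corr]
  rwa [e] at h1

/-- the product of the factors -/
noncomputable def fac (Z : Finset ℂ) (n : ℂ → ℤ) (h : ℝ) (s : ℂ) : ℂ := ∏ u ∈ Z, cf h u s ^ n u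

theorem exp_corr {σ₀ : ℝ} {Z : Finset ℂ} (n : ℂ → ℤ) {h : ℝ} (hh : 0 < h)
    (hZ : ∀ u ∈ Z, u.re ≤ σ₀) {s : ℂ} (hs : σ₀ < s.re) :
    exp (∑ u ∈ Z, (n u : ℂ) * gser (lamc h) (cc h u) s) * fac Z n h s = 1 ∧ fac Z n h s ≠ 0 := by
  have h1 : ∀ u ∈ Z, cf h u s ≠ 0 := fun u hu => (exp_gser hh ((hZ u hu).trans_lt hs)).2
  have h2 : fac Z n h s ≠ 0 := Finset.prod_ne_zero_iff.2 fun u hu => zpow_ne_zero _ (h1 u hu)
  refine ⟨?_, h2⟩
  rw [Complex.exp_sum]
  unfold fac
  rw [← Finset.prod_mul_distrib]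
  refine Finset.prod_eq_one fun u hu => ?_
  rw [Complex.exp_int_mul, (exp_gser hh ((hZ u hu).trans_lt hs)).1, inv_zpow,
    inv_mul_cancel₀ (zpow_ne_zero _ (h1 u hu))]

theorem fac_mero (Z : Finset ℂ) (n : ℂ → ℤ) (h : ℝ) (z : ℂ) : MeromorphicAt (fac Z n h) z := by
  unfold fac
  exact MeromorphicAt.fun_prod fun u _ => ((cf_an h u z).meromorphicAt).zpow (n u)

theorem fac_diff (Z : Finset ℂ) {n : ℂ → ℤ} (hn : ∀ u ∈ Z, 0 ≤ n u) (h : ℝ) :
    Differentiable ℂ (fac Z n h) := by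
  unfold fac
  refine Differentiable.fun_finsetProd fun u hu => ?_
  have h1 : (fun s => cf h u s ^ n u) = fun s => cf h u s ^ (n u).toNat := by
    funext s
    conv_lhs => rw [← Int.toNat_of_nonneg (hn u hu)]
    rw [zpow_natCast]
  rw [h1]
  exact (cf_diff h u).pow _

end Pool.Agent.Q45.CT
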