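import Pool.Agent.W189.ML.Grow

/-! Mittag-Leffler means of generalised Dirichlet series, as entire functions of `s`. -/

set_option autoImplicit false

namespace Pool.Agent.Q45.CT

open Complex MeasureTheory Filter Topology Set
open Pool.Agent.W189.ML

/-- `∑ c i e^{-s λ i}` converges absolutely for `Re s > σ₀` -/
structure DS {ι : Type} (lam : ι → ℝ) (c : ι → ℂ) (σ₀ : ℝ) : Prop where
  pos : ∀ i, 0 ≤ lam i
  sum : ∀ σ : ℝ, σ₀ < σ → Summable fun i => ‖c i‖ * Real.exp (-(σ * lam i))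

/-- the series -/
noncomputable def gser {ι : Type} (lam : ι → ℝ) (c : ι → ℂ) (s : ℂ) : ℂ :=
  ∑' i, c i * exp (-(s * lam i))

/-- its mean -/
noncomputable def gmean {ι : Type} (lam : ι → ℝ) (c : ι → ℂ) (T : ℝ) (s : ℂ) : ℂ :=
  ∑' i, c i * exp (-(s * lam i)) * ((om (lam i / T) : ℝ) : ℂ)

/-- a function together with its means -/
structure Rep (σ₀ : ℝ) (g : ℂ → ℂ) (m : ℝ → ℂ → ℂ) : Prop where
  ent : ∀ T : ℝ, 0 < T → Differentiable ℂ (m T)
  unif : ∀ σ : ℝ, σ₀ < σ → TendstoUniformlyOn m g atTop {s | σ ≤ s.re}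
  bdd : ∀ σ : ℝ, σ₀ < σ → ∃ B : ℝ, ∀ s : ℂ, σ ≤ s.re → ‖g s‖ ≤ B
  diff : DifferentiableOn ℂ g {s | σ₀ < s.re}
  rep : ∀ T : ℝ, 0 < T → ∀ b : ℝ, 0 ≤ b → ∀ w : ℂ, σ₀ < w.re + b / T →
    J b (fun z => g (w + z / T)) = m T w

variable {ι : Type} {lam : ι → ℝ} {c : ι → ℂ} {σ₀ : ℝ}

theorem norm_term {s : ℂ} (i : ι) : ‖c i * exp (-(s * lam i))‖ = ‖c i‖ * Real.exp (-(s.re * lam i)) := by
  rw [norm_mul, Complex.norm_exp]
  congr 2
  simp

theorem DS.term_le (D : DS lam c σ₀) {σ : ℝ} {s : ℂ} (hs : σ ≤ s.re) (i : ι) :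
    ‖c i * exp (-(s * lam i))‖ ≤ ‖c i‖ * Real.exp (-(σ * lam i)) := by
  rw [norm_term]
  refine mul_le_mul_of_nonneg_left ?_ (norm_nonneg _)
  apply Real.exp_le_exp.2
  nlinarith [D.pos i]

theorem DS.mean_le (D : DS lam c σ₀) {T R : ℝ} (hT : 0 < T) {s : ℂ} (hs : R ≤ s.re) (i : ι) :
    ‖c i * exp (-(s * lam i)) * ((om (lam i / T) : ℝ) : ℂ)‖ ≤
      (Real.exp (Real.exp (T * |σ₀ + 1 - R|)) + 1) * (‖c i‖ * Real.exp (-((σ₀ + 1) * lam i))) := by
  have hv : 0 ≤ lam i / T := div_nonneg (D.pos i) hT.le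
  rw [norm_mul, Complex.norm_real, Real.norm_eq_abs, abs_of_nonneg (om_nonneg hv)]
  have h1 := om_le (a := T * |σ₀ + 1 - R|) (by positivity) hv
  have h2 : T * |σ₀ + 1 - R| * (lam i / T) = |σ₀ + 1 - R| * lam i := by field_simp
  rw [h2] at h1
  calc _ ≤ (‖c i‖ * Real.exp (-(R * lam i))) *
        ((Real.exp (Real.exp (T * |σ₀ + 1 - R|)) + 1) * Real.exp (-(|σ₀ + 1 - R| * lam i))) :=
        mul_le_mul (D.term_le hs i) h1 (om_nonneg hv) (by positivity)
    _ = (Real.exp (Real.exp (T * |σ₀ + 1 - R|)) + 1) * (‖c i‖ *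
        (Real.exp (-(R * lam i)) * Real.exp (-(|σ₀ + 1 - R| * lam i)))) := by ring
    _ ≤ _ := by
        rw [← Real.exp_add]
        gcongr
        have := le_abs_self (σ₀ + 1 - R)
        nlinarith [D.pos i]

theorem DS.ent (D : DS lam c σ₀) {T : ℝ} (hT : 0 < T) : Differentiable ℂ (gmean lam c T) := by
  intro s
  have hU : IsOpen {w : ℂ | s.re - 1 < w.re} := isOpen_lt continuous_const Complex.continuous_re
  have h1 : DifferentiableOn ℂ (gmean lam c T) {w : ℂ | s.re - 1 < w.re} := by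
    unfold gmean
    refine differentiableOn_tsum_of_summable_norm
      ((D.sum (σ₀ + 1) (by linarith)).mul_left
        (Real.exp (Real.exp (T * |σ₀ + 1 - (s.re - 1)|)) + 1)) (fun i => by fun_prop) hU ?_
    intro i w hw
    exact D.mean_le hT (le_of_lt hw) i
  exact h1.differentiableAt (hU.mem_nhds (by simp))

theorem DS.diff (D : DS lam c σ₀) : DifferentiableOn ℂ (gser lam c) {s | σ₀ < s.re} := by
  intro s hs
  have hs' : σ₀ < s.re := hs
  have hU : IsOpen {w : ℂ | (σ₀ + s.re) / 2 < w.re} := isOpen_lt continuous_const Complex.continuous_re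
  have h1 : DifferentiableOn ℂ (gser lam c) {w : ℂ | (σ₀ + s.re) / 2 < w.re} := by
    unfold gser
    refine differentiableOn_tsum_of_summable_norm (D.sum ((σ₀ + s.re) / 2) (by linarith))
      (fun i => by fun_prop) hU ?_
    intro i w hw
    exact D.term_le (le_of_lt hw) i
  exact (h1.differentiableAt (hU.mem_nhds (by show _ < s.re; linarith))).differentiableWithinAt

theorem DS.bdd (D : DS lam c σ₀) {σ : ℝ} (hσ : σ₀ < σ) {s : ℂ} (hs : σ ≤ s.re) :
    ‖gser lam c s‖ ≤ ∑' i, ‖c i‖ * Real.exp (-(σ * lam i)) :=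
  tsum_of_norm_bounded (D.sum σ hσ).hasSum fun i => D.term_le hs i

theorem DS.unif (D : DS lam c σ₀) {σ : ℝ} (hσ : σ₀ < σ) :
    TendstoUniformlyOn (gmean lam c) (gser lam c) atTop {s | σ ≤ s.re} := by
  set d : ℝ → ℝ := fun T => ∑' i, ‖c i‖ * Real.exp (-(σ * lam i)) * |om (lam i / T) - 1| with hd
  have hbd : ∀ (i : ι) (T : ℝ), 0 < T → |om (lam i / T) - 1| ≤ Real.exp 1 + 1 + 1 := by
    intro i T hT
    have hv : 0 ≤ lam i / T := div_nonneg (D.pos i) hT.le
    have h1 := om_nonneg hv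
    have h2 := om_le_const hv
    rw [abs_le]
    constructor
    · have := Real.exp_pos 1; linarith
    · linarith
  have hd0 : Tendsto d atTop (𝓝 0) := by
    have h0 : (0 : ℝ) = ∑' _ : ι, (0 : ℝ) := tsum_zero.symm
    rw [h0]
    refine tendsto_tsum_of_dominated_convergence
      ((D.sum σ hσ).mul_right (Real.exp 1 + 1 + 1)) ?_ ?_
    · intro i
      have h1 : Tendsto (fun T : ℝ => lam i / T) atTop (𝓝 0) := tendsto_const_nhds.div_atTop tendsto_id
      have h2 : ContinuousAt om 0 := by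
        unfold om
        have h3 : ContinuousAt Real.Gamma (1 + 0) := by
          refine (Real.differentiableAt_Gamma fun m => ?_).continuousAt
          have : (0 : ℝ) ≤ m := m.cast_nonneg
          linarith
        have h4 : ContinuousAt (fun v : ℝ => Real.Gamma (1 + v)) 0 :=
          ContinuousAt.comp (f := fun v : ℝ => 1 + v) (g := Real.Gamma) h3 (by fun_prop)
        refine h4.inv₀ ?_
        simp
      have h5 := h2.tendsto.comp h1
      have h6 : om 0 = 1 := by unfold om; simp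
      rw [h6] at h5
      have h7 : Tendsto (fun T : ℝ => |om (lam i / T) - 1|) atTop (𝓝 0) := by
        have := (h5.sub_const 1).abs
        simpa using this
      have := h7.const_mul (‖c i‖ * Real.exp (-(σ * lam i)))
      simpa using this
    · filter_upwards [eventually_gt_atTop 0] with T hT i
      rw [Real.norm_eq_abs, abs_mul, abs_abs, abs_of_nonneg (by positivity : 0 ≤ ‖c i‖ * Real.exp (-(σ * lam i)))]
      exact mul_le_mul_of_nonneg_left (hbd i T hT) (by positivity)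
  rw [Metric.tendstoUniformlyOn_iff]
  intro ε hε
  filter_upwards [hd0.eventually (gt_mem_nhds hε), eventually_gt_atTop 0] with T hT hT0 s hs
  refine lt_of_le_of_lt ?_ hT
  have hs' : σ ≤ s.re := hs
  have s1 : Summable fun i => c i * exp (-(s * lam i)) :=
    Summable.of_norm_bounded (D.sum σ hσ) fun i => D.term_le hs' i
  have s2 : Summable fun i => c i * exp (-(s * lam i)) * ((om (lam i / T) : ℝ) : ℂ) :=
    Summable.of_norm_bounded ((D.sum (σ₀ + 1) (by linarith)).mul_left _)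
      fun i => D.mean_le hT0 hs' i
  rw [dist_eq_norm]
  unfold gser gmean
  rw [← s1.tsum_sub s2]
  refine tsum_of_norm_bounded (Summable.hasSum ?_) fun i => ?_
  · exact Summable.of_nonneg_of_le (fun i => by positivity)
      (fun i => mul_le_mul_of_nonneg_left (hbd i T hT0) (by positivity))
      ((D.sum σ hσ).mul_right (Real.exp 1 + 1 + 1))
  · have h1 : c i * exp (-(s * lam i)) - c i * exp (-(s * lam i)) * ((om (lam i / T) : ℝ) : ℂ) =
      c i * exp (-(s * lam i)) * (((1 - om (lam i / T) : ℝ)) : ℂ) := by push_cast; ring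
    rw [h1, norm_mul, Complex.norm_real, Real.norm_eq_abs, abs_sub_comm]
    exact mul_le_mul_of_nonneg_right (D.term_le hs' i) (abs_nonneg _)

theorem DS.repr [Countable ι] (D : DS lam c σ₀) {T b : ℝ} (hT : 0 < T) (hb : 0 ≤ b) {w : ℂ}
    (hw : σ₀ < w.re + b / T) : J b (fun z => gser lam c (w + z / T)) = gmean lam c T w := by
  have hTc : (T : ℂ) ≠ 0 := by exact_mod_cast hT.ne'
  have hre : ∀ z ∈ HS b, w.re + b / T ≤ (w + z / T).re := by
    intro z hz
    have : (w + z / T).re = w.re + z.re / T := by simp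
    rw [this]
    have := div_le_div_of_nonneg_right hz.1 hT.le
    linarith
  have h1 := J_hasSum (a := b) hb (F := fun i z => c i * exp (-((w + z / T) * lam i)))
    (D.sum _ hw)
    (fun i => ⟨by fun_prop, ‖c i‖ * Real.exp (-((w.re + b / T) * lam i)), 0, by positivity, le_rfl,
      fun z hz => by
        have := D.term_le (hre z hz) i
        linarith⟩) fun i z hz => D.term_le (hre z hz) i
  have h2 : ∀ i, J b (fun z => c i * exp (-((w + z / T) * lam i))) =
      c i * exp (-(w * lam i)) * ((om (lam i / T) : ℝ) : ℂ) := by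
    intro i
    have e3 : (fun z : ℂ => c i * exp (-((w + z / T) * lam i))) =
        fun z => (c i * exp (-(w * lam i))) * exp (-(z * ((lam i / T : ℝ) : ℂ))) := by
      funext z
      rw [mul_assoc, ← Complex.exp_add]
      congr 2
      push_cast
      field_simp
      ring
    rw [e3, J_const_mul, J_exp]
    rfl
  simp only [h2] at h1
  exact h1.tsum_eq.symm

theorem DS.toRep [Countable ι] (D : DS lam c σ₀) : Rep σ₀ (gser lam c) (gmean lam c) where
  ent T hT := D.ent hT
  unif σ hσ := D.unif hσ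
  bdd σ hσ := ⟨_, fun _ hs => D.bdd hσ hs⟩
  diff := D.diff
  rep T hT b hb w hw := D.repr hT hb hw

theorem Rep.mono {σ₁ : ℝ} {g : ℂ → ℂ} {m : ℝ → ℂ → ℂ} (h : Rep σ₀ g m) (hσ : σ₀ ≤ σ₁) :
    Rep σ₁ g m where
  ent := h.ent
  unif σ hs := h.unif σ (hσ.trans_lt hs)
  bdd σ hs := h.bdd σ (hσ.trans_lt hs)
  diff := h.diff.mono fun s (hs : σ₁ < s.re) => hσ.trans_lt hs
  rep T hT b hb w hw := h.rep T hT b hb w (hσ.trans_lt hw)

/-- admissibility of `g (w + z/T)` on a half strip in the half plane -/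
theorem Rep.adm {g : ℂ → ℂ} {m : ℝ → ℂ → ℂ} (h : Rep σ₀ g m) {T b : ℝ} (hT : 0 < T) {w : ℂ}
    (hw : σ₀ < w.re + b / T) : Adm b (fun z => g (w + z / T)) := by
  have hre : ∀ z ∈ HS b, w.re + b / T ≤ (w + z / T).re := by
    intro z hz
    have : (w + z / T).re = w.re + z.re / T := by simp
    rw [this]
    have := div_le_div_of_nonneg_right hz.1 hT.le
    linarith
  obtain ⟨B, hB⟩ := h.bdd _ hw
  refine ⟨h.diff.continuousOn.comp (by fun_prop) fun z hz => hw.trans_le (hre z hz), |B|, 0,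
    abs_nonneg _, le_rfl, fun z hz => ?_⟩
  have := (hB _ (hre z hz)).trans (le_abs_self _)
  linarith

theorem Rep.sub {g g' : ℂ → ℂ} {m m' : ℝ → ℂ → ℂ} (h : Rep σ₀ g m) (h' : Rep σ₀ g' m') :
    Rep σ₀ (fun s => g s - g' s) (fun T s => m T s - m' T s) where
  ent T hT := (h.ent T hT).sub (h'.ent T hT)
  unif σ hs := by
    have := (h.unif σ hs).sub (h'.unif σ hs)
    exact this
  bdd σ hs := by
    obtain ⟨B, hB⟩ := h.bdd σ hs
    obtain ⟨B', hB'⟩ := h'.bdd σ hs
    exact ⟨B + B', fun s h1 => (norm_sub_le _ _).trans (add_le_add (hB s h1) (hB' s h1))⟩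
  diff := h.diff.sub h'.diff
  rep T hT b hb w hw := by
    rw [J_sub hb (h.adm hT hw) (h'.adm hT hw), h.rep T hT b hb w hw, h'.rep T hT b hb w hw]

theorem Rep.zero : Rep σ₀ (fun _ => 0) (fun _ _ => 0) where
  ent _ _ := differentiable_const _
  unif σ _ := by
    rw [Metric.tendstoUniformlyOn_iff]
    intro ε hε
    simp [hε]
  bdd σ _ := ⟨0, by simp⟩
  diff := differentiableOn_const _
  rep T _ b _ w _ := by
    have := J_const_mul (a := b) (Φ := fun _ => (0 : ℂ)) 0
    simpa using this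

theorem Rep.smul {g : ℂ → ℂ} {m : ℝ → ℂ → ℂ} (h : Rep σ₀ g m) (k : ℂ) :
    Rep σ₀ (fun s => k * g s) (fun T s => k * m T s) where
  ent T hT := (h.ent T hT).const_mul k
  unif σ hs := by
    have h1 := h.unif σ hs
    rw [Metric.tendstoUniformlyOn_iff] at h1 ⊢
    intro ε hε
    have h2 := h1 (ε / (‖k‖ + 1)) (by positivity)
    filter_upwards [h2] with T hT s hs
    have h3 := hT s hs
    rw [dist_eq_norm] at h3 ⊢
    rw [← mul_sub, norm_mul]
    rw [lt_div_iff₀ (by positivity)] at h3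
    nlinarith [norm_nonneg (g s - m T s), norm_nonneg k]
  bdd σ hs := by
    obtain ⟨B, hB⟩ := h.bdd σ hs
    exact ⟨‖k‖ * B, fun s h1 => by
      rw [norm_mul]; exact mul_le_mul_of_nonneg_left (hB s h1) (norm_nonneg _)⟩
  diff := h.diff.const_mul k
  rep T hT b hb w hw := by
    rw [J_const_mul, h.rep T hT b hb w hw]

theorem Rep.add {g g' : ℂ → ℂ} {m m' : ℝ → ℂ → ℂ} (h : Rep σ₀ g m) (h' : Rep σ₀ g' m') :
    Rep σ₀ (fun s => g s + g' s) (fun T s => m T s + m' T s) := by
  have h1 := h.sub (h'.smul (-1))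
  have e1 : (fun s => g s - -1 * g' s) = fun s => g s + g' s := by funext s; ring
  have e2 : (fun T s => m T s - -1 * m' T s) = fun T s => m T s + m' T s := by funext T s; ring
  rwa [e1, e2] at h1

theorem Rep.sum {κ : Type} (Z : Finset κ) {g : κ → ℂ → ℂ} {m : κ → ℝ → ℂ → ℂ}
    (h : ∀ i ∈ Z, Rep σ₀ (g i) (m i)) :
    Rep σ₀ (fun s => ∑ i ∈ Z, g i s) (fun T s => ∑ i ∈ Z, m i T s) := by
  classical
  induction Z using Finset.induction_on with
  | empty => simpa using Rep.zero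
  | insert a Z ha ih =>
    have h1 := (h a (Finset.mem_insert_self a Z)).add
      (ih fun i hi => h i (Finset.mem_insert_of_mem hi))
    simp only [Finset.sum_insert ha]
    exact h1

end Pool.Agent.Q45.CT
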